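import Pool.Agent.Lightning.Graph

/-!
# The Lightning Model: the number of splitting boxes is at most the size of the boundary
-/

namespace Pool.Agent.Lightning

open MeasureTheory unitInterval Relation

section abstract_lemma

variable {V ι : Type*}

/-- Two of three disjoint sets do not contain a given point. -/
lemma exists_other {Z : Fin 3 → Set V} (h : ∀ a b, a ≠ b → Disjoint (Z a) (Z b)) (x : V)
    (a : Fin 3) : ∃ a', a' ≠ a ∧ x ∉ Z a' := by
  by_contra hcon
  push Not at hcon
  have h1 : x ∈ Z (a + 1) := hcon (a + 1) (by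
    fin_cases a <;> decide)
  have h2 : x ∈ Z (a + 2) := hcon (a + 2) (by
    fin_cases a <;> decide)
  have h3 : a + 1 ≠ a + 2 := by fin_cases a <;> decide
  exact Set.disjoint_left.1 (h _ _ h3) h1 h2

open Classical in
/-- The counting lemma. -/
theorem counting (n : ℕ) : ∀ (J : Finset ι) (D : Finset V) (Z : ι → Fin 3 → Set V) (p : ι → V),
    J.card = n →
    (∀ j ∈ J, ∀ a b, a ≠ b → Disjoint (Z j a) (Z j b)) →
    (∀ j ∈ J, ∀ a, ∃ x ∈ D, x ∈ Z j a) →
    (∀ j ∈ J, ∀ l ∈ J, j ≠ l → ∀ a, p l ∉ Z j a → ∀ b, ∀ x ∈ Z j a,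
      (x ∈ D ∨ ∃ m ∈ J, m ≠ j ∧ x = p m) → (x ∈ Z l b ↔ p j ∈ Z l b)) →
    n ≤ D.card := by
  induction n with
  | zero => intros; exact Nat.zero_le _
  | succ n ih =>
    intro J D Z p hcard h1 h2 h3
    let M : ι × Fin 3 → Finset ι := fun x => J.filter fun l => l ≠ x.1 ∧ p l ∈ Z x.1 x.2
    have hne : (J ×ˢ (Finset.univ : Finset (Fin 3))).Nonempty := by
      have : J.Nonempty := by
        rw [← Finset.card_pos, hcard]
        omega
      exact this.product Finset.univ_nonempty
    obtain ⟨⟨j, a⟩, hja, hmin⟩ := Finset.exists_min_image _ (fun x => (M x).card) hne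
    have hj : j ∈ J := (Finset.mem_product.1 hja).1
    have hM : ∀ l ∈ J, l ≠ j → p l ∉ Z j a := by
      intro l hl hlj hpl
      obtain ⟨b, -, hb⟩ := exists_other (h1 l hl) (p j) 0
      have hlt : (M (l, b)).card < (M (j, a)).card := by
        apply Finset.card_lt_card
        refine ⟨?_, ?_⟩
        · intro m hm
          simp only [M, Finset.mem_filter] at hm ⊢
          obtain ⟨hmJ, hml, hpm⟩ := hm
          refine ⟨hmJ, ?_, ?_⟩
          · rintro rfl
            exact hb hpm
          · have := h3 l hl j hj hlj b hb a (p m) hpm (Or.inr ⟨m, hmJ, hml, rfl⟩)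
            exact this.2 hpl
        · intro hsub
          have : l ∈ M (j, a) := by
            simp only [M, Finset.mem_filter]
            exact ⟨hl, hlj, hpl⟩
          have := hsub this
          simp only [M, Finset.mem_filter] at this
          exact this.2.1 rfl
      have := hmin (l, b) (Finset.mem_product.2 ⟨hl, Finset.mem_univ _⟩)
      omega
    let D' := D.filter fun x => x ∉ Z j a
    have hD' : D'.card < D.card := by
      apply Finset.card_lt_card
      refine ⟨Finset.filter_subset _ _, ?_⟩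
      intro hsub
      obtain ⟨x, hxD, hx⟩ := h2 j hj a
      have := hsub hxD
      simp only [D', Finset.mem_filter] at this
      exact this.2 hx
    have hcard' : (J.erase j).card = n := by
      rw [Finset.card_erase_of_mem hj, hcard]
      omega
    have := ih (J.erase j) D' Z p hcard'
      (fun l hl => h1 l (Finset.mem_of_mem_erase hl)) ?_ ?_
    · omega
    · intro l hl b
      have hlJ := Finset.mem_of_mem_erase hl
      have hlj := Finset.ne_of_mem_erase hl
      by_contra hcon
      push Not at hcon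
      have hall : ∀ x ∈ D, x ∈ Z l b → x ∈ Z j a := by
        intro x hx hxl
        by_contra hxj
        exact hcon x (Finset.mem_filter.2 ⟨hx, hxj⟩) hxl
      obtain ⟨x, hxD, hxl⟩ := h2 l hlJ b
      have hxj := hall x hxD hxl
      have hpj : p j ∈ Z l b :=
        (h3 j hj l hlJ hlj.symm a (hM l hlJ hlj) b x hxj (Or.inl hxD)).1 hxl
      obtain ⟨a', haa, ha'⟩ := exists_other (h1 j hj) (p l) a
      obtain ⟨x', hxD', hxj'⟩ := h2 j hj a'
      have hxl' : x' ∈ Z l b :=
        (h3 j hj l hlJ hlj.symm a' ha' b x' hxj' (Or.inl hxD')).2 hpj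
      exact Set.disjoint_left.1 (h1 j hj _ _ haa) hxj' (hall x' hxD' hxl')
    · intro k hk l hl hkl c hc b x hx hxm
      refine h3 k (Finset.mem_of_mem_erase hk) l (Finset.mem_of_mem_erase hl) hkl c hc b x hx ?_
      rcases hxm with hxm | ⟨m, hm, hmk, rfl⟩
      · exact Or.inl (Finset.mem_of_mem_filter x hxm)
      · exact Or.inr ⟨m, Finset.mem_of_mem_erase hm, hmk, rfl⟩

end abstract_lemma

/-- The sup norm sphere of radius `N`. -/
noncomputable def sphere (N : ℤ) : Finset Site :=
  (Finset.Icc (-N) N ×ˢ Finset.Icc (-N) N).filter fun a => |a.1| = N ∨ |a.2| = N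

lemma mem_sphere {N : ℤ} {a : Site} :
    a ∈ sphere N ↔ a ∈ box N 0 ∧ a ∉ box (N - 1) 0 := by
  unfold sphere box
  simp only [Finset.mem_filter, Finset.mem_product, Finset.mem_Icc, Set.mem_ofPred_eq,
    Int.abs_eq_natAbs, Prod.fst_zero, Prod.snd_zero]
  omega

lemma card_sphere (N : ℤ) (hN : 0 ≤ N) : ((sphere N).card : ℤ) ≤ 4 * (2 * N + 1) := by
  have hsub : sphere N ⊆ ({N} ×ˢ Finset.Icc (-N) N) ∪ ({-N} ×ˢ Finset.Icc (-N) N) ∪
      ((Finset.Icc (-N) N ×ˢ {N}) ∪ (Finset.Icc (-N) N ×ˢ {-N})) := by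
    intro a ha
    unfold sphere at ha
    simp only [Finset.mem_filter, Finset.mem_product, Finset.mem_Icc, Finset.mem_union,
      Finset.mem_singleton, Int.abs_eq_natAbs] at ha ⊢
    omega
  have h1 := Finset.card_le_card hsub
  have h2 : (Finset.Icc (-N) N).card = (2 * N + 1).toNat := by
    rw [Int.card_Icc]
    congr 1
    ring
  have h3 := (Finset.card_union_le (({N} ×ˢ Finset.Icc (-N) N) ∪ ({-N} ×ˢ Finset.Icc (-N) N))
      ((Finset.Icc (-N) N ×ˢ {N}) ∪ (Finset.Icc (-N) N ×ˢ {-N})))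
  have h4 := (Finset.card_union_le (({N} : Finset ℤ) ×ˢ Finset.Icc (-N) N)
    (({-N} : Finset ℤ) ×ˢ Finset.Icc (-N) N))
  have h5 := (Finset.card_union_le (Finset.Icc (-N) N ×ˢ ({N} : Finset ℤ))
    (Finset.Icc (-N) N ×ˢ ({-N} : Finset ℤ)))
  simp only [Finset.card_product, Finset.card_singleton, one_mul, mul_one, h2] at h4 h5
  omega

lemma box_finite (r : ℤ) (z : Site) : (box r z).Finite := by
  refine (Finset.finite_toSet (Finset.Icc (z.1 - r) (z.1 + r) ×ˢ
    Finset.Icc (z.2 - r) (z.2 + r))).subset ?_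
  intro a ha
  unfold box at ha
  simp only [Set.mem_ofPred_eq, Int.abs_eq_natAbs] at ha
  simp only [Finset.coe_product, Finset.coe_Icc, Set.mem_prod, Set.mem_Icc]
  omega

/-- Infinite strong clusters which touch a small box meet the sphere. -/
lemma exists_mem_sphere {ε : ℝ} {U : Site → I} {N : ℤ} {t : Site} (ht : t ∈ box (N - 1) 0)
    (hinf : {b | Strong ε U t b}.Infinite) : ∃ x ∈ sphere N, Strong ε U t x := by
  obtain ⟨b, hb, hbN⟩ := hinf.exists_notMem_finite (box_finite (N - 1) 0)
  obtain ⟨c, d, h1, h2, h3, h4, h5⟩ := exists_crossing (P := fun a => a ∈ box (N - 1) 0)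
    hb.1 ht hbN
  refine ⟨d, ?_, h1.tail h3, h5.trans hb.2⟩
  rw [mem_sphere]
  refine ⟨?_, h4⟩
  have h6 := h3.1
  unfold box Adj at *
  simp only [Set.mem_ofPred_eq, Int.abs_eq_natAbs] at *
  omega

lemma exists_bdry {ε : ℝ} {U : Site → I} {r : ℤ} {z a b : Site} (hab : Reach ε U a b)
    (ha : a ∈ box r z) (hb : b ∉ box r z) : ∃ d ∈ bdry r z, Reach ε U a d ∧ Reach ε U d b := by
  obtain ⟨c, d, h1, h2, h3, h4, h5⟩ := exists_crossing (P := fun a => a ∈ box r z) hab ha hb
  exact ⟨d, ⟨h4, c, h2, h3.1⟩, h1.tail h3, h5⟩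

/-- The key property of splitting boxes. -/
lemma split_key {ε : ℝ} {r : ℤ} {j l : Site} {U Vj Vl : Site → I}
    (hsep : Disjoint (box r j) (box (r + 1) l)) (hsep' : Disjoint (box r l) (box (r + 1) j))
    (hj : Hub ε r j U) (hl : Hub ε r l U) {t pl pj x : Site} (ht : t ∈ bdry r j)
    (hpj : pj ∈ bdry r j) (hpl : pl ∈ bdry r l)
    (hx : Strong ε (mix (box r j) Vj U) t x)
    (hpl' : ¬ Strong ε (mix (box r j) Vj U) t pl) (hxj : x ∉ box r j) :
    Strong ε (mix (box r l) Vl U) x pj := by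
  set Wj := mix (box r j) Vj U with hWj
  set Wl := mix (box r l) Vl U with hWl
  have hub_l : Hub ε r l Wj := hl.congr fun a ha => by
    rw [hWj, mix_of_not_mem]
    exact fun h => Set.disjoint_left.1 hsep h ha
  have hub_j : Hub ε r j Wl := hj.congr fun a ha => by
    rw [hWl, mix_of_not_mem]
    exact fun h => Set.disjoint_left.1 hsep' h ha
  -- the cluster of `t` in `Wj` avoids the closure of the box `l`
  have havoid : ∀ y, Strong ε Wj t y → y ∉ box r l ∧ y ∉ bdry r l := by
    intro y hy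
    have h1 : y ∉ bdry r l := fun h => hpl' (hy.trans (hub_l.strong h hpl))
    refine ⟨fun h => ?_, h1⟩
    have htl : t ∉ box r l := fun h' =>
      Set.disjoint_left.1 hsep' h' (bdry_subset_box ht)
    obtain ⟨d, hd, h2, h3⟩ := exists_bdry hy.2 h htl
    exact hpl' (Strong.trans (⟨hy.1.trans h2, h3⟩ : Strong ε Wj t d) (hub_l.strong hd hpl))
  -- connections of the cluster of `t` in `Wj` remain in `Wl`
  have hkeep : ∀ u v, Strong ε Wj t u → Strong ε Wj t v → Reach ε Wj u v → u ∉ box r j →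
      v ∉ box r j → Reach ε Wl u v := by
    intro u v hu hv huv huj hvj
    have h1 : Reach ε (mix (box r l) Vl Wj) u v := by
      refine reach_congr (Q := box r l) (fun a ha => (mix_of_not_mem ha).symm) huv ?_
      intro y huy hyv
      exact (havoid y ⟨hu.1.trans huy, hyv.trans hv.2⟩).1
    refine hub_reach hub_j ?_ huj hvj h1
    intro a ha
    by_cases hal : a ∈ box r l
    · rw [mix_of_mem hal, hWl, mix_of_mem hal]
    · rw [mix_of_not_mem hal, hWl, mix_of_not_mem hal, hWj, mix_of_not_mem ha]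
  have h1 : Strong ε Wl x t :=
    ⟨hkeep x t hx (Strong.refl t) hx.2 hxj ht.1, hkeep t x (Strong.refl t) hx hx.1 ht.1 hxj⟩
  exact h1.trans (hub_j.strong ht hpj)

lemma corner_mem_bdry {r : ℤ} (hr : 0 ≤ r) (j : Site) :
    ((j.1 + r + 1, j.2) : Site) ∈ bdry r j := by
  refine ⟨?_, (j.1 + r, j.2), ?_, ?_⟩
  · unfold box
    simp only [Set.mem_ofPred_eq, Int.abs_eq_natAbs]
    omega
  · unfold box
    simp only [Set.mem_ofPred_eq, Int.abs_eq_natAbs]
    omega
  · unfold Adj
    simp only [Int.abs_eq_natAbs]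
    omega

/-- There are at most as many splitting boxes as there are sites on the sphere. -/
theorem card_split_le {ε : ℝ} {r : ℤ} (hr : 0 ≤ r) (N : ℤ) (U : Site → I) (J : Finset Site)
    (hsep : ∀ j ∈ J, ∀ l ∈ J, j ≠ l → Disjoint (box r j) (box (r + 1) l))
    (hin : ∀ j ∈ J, box (r + 1) j ⊆ box (N - 1) 0)
    (hsplit : ∀ j ∈ J, Split ε r j U) : J.card ≤ (sphere N).card := by
  have hch : ∀ j : Site, ∃ (V : Site → I) (t : Fin 3 → Site), j ∈ J →
      (∀ i, t i ∈ bdry r j) ∧ (∀ i, {b | Strong ε (mix (box r j) V U) (t i) b}.Infinite) ∧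
      ∀ i i', i ≠ i' → ¬ Strong ε (mix (box r j) V U) (t i) (t i') := by
    intro j
    by_cases hj : j ∈ J
    · obtain ⟨-, V, t, ht⟩ := hsplit j hj
      exact ⟨V, t, fun _ => ht⟩
    · exact ⟨U, fun _ => j, fun h => absurd h hj⟩
  choose V t hVt using hch
  refine counting J.card J (sphere N)
    (fun j a => {b | Strong ε (mix (box r j) (V j) U) (t j a) b})
    (fun j => (j.1 + r + 1, j.2)) rfl ?_ ?_ ?_
  · intro j hj a b hab
    rw [Set.disjoint_left]
    intro x hx hx'
    exact (hVt j hj).2.2 a b hab (Strong.trans hx (Strong.symm hx'))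
  · intro j hj a
    exact exists_mem_sphere (hin j hj (bdry_subset_box ((hVt j hj).1 a))) ((hVt j hj).2.1 a)
  · intro j hj l hl hjl a hpl b x hx hxm
    have hxj : x ∉ box r j := by
      intro hxj
      rcases hxm with hxm | ⟨m, hm, hmj, rfl⟩
      · have h1 := (mem_sphere.1 hxm).2
        apply h1
        apply hin j hj
        unfold box at hxj ⊢
        simp only [Set.mem_ofPred_eq, Int.abs_eq_natAbs] at hxj ⊢
        omega
      · exact Set.disjoint_left.1 (hsep j hj m hm hmj.symm) hxj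
          (bdry_subset_box (corner_mem_bdry hr m))
    have h1 : Strong ε (mix (box r l) (V l) U) x (j.1 + r + 1, j.2) :=
      split_key (hsep j hj l hl hjl) (hsep l hl j hj hjl.symm) (hsplit j hj).1 (hsplit l hl).1
        ((hVt j hj).1 a) (corner_mem_bdry hr j) (corner_mem_bdry hr l) hx hpl hxj
    exact ⟨fun h => Strong.trans h h1, fun h => Strong.trans h h1.symm⟩

end Pool.Agent.Lightning
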