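import Mathlib

/-!
# The Lightning Model on `ℤ²`: definitions
-/

namespace Pool.Agent.Lightning

open MeasureTheory unitInterval

/-- The sites of the square lattice `ℤ²`. -/
abbrev Site := ℤ × ℤ

/-- `a` and `b` are nearest neighbours: `|a - b|₁ = 1`. -/
def Adj (a b : Site) : Prop := |a.1 - b.1| + |a.2 - b.2| = 1

/-- The directed edge `(a, b)` is open: `a, b` are nearest neighbours and `U_b < U_a + ε`. -/
def Opn (ε : ℝ) (U : Site → I) (a b : Site) : Prop := Adj a b ∧ (U b : ℝ) < U a + ε

/-- `a → b`: there is a sequence of distinct vertices `a = p 0, p 1, …, p n = b` such that every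
`(p i, p (i + 1))` is an open edge. -/
def Conn (ε : ℝ) (U : Site → I) (a b : Site) : Prop :=
  ∃ (n : ℕ) (p : ℕ → Site), p 0 = a ∧ p n = b ∧
    (∀ i ≤ n, ∀ j ≤ n, p i = p j → i = j) ∧ ∀ i < n, Opn ε U (p i) (p (i + 1))

/-- The strong cluster of `a`: the set of all `b` with `a → b` and `b → a`. -/
def strongCluster (ε : ℝ) (U : Site → I) (a : Site) : Set Site :=
  {b | Conn ε U a b ∧ Conn ε U b a}

/-- The number `N` of infinite strong clusters. -/
noncomputable def numInf (ε : ℝ) (U : Site → I) : ℕ∞ :=
  {C : Set Site | C.Infinite ∧ ∃ a, C = strongCluster ε U a}.encard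

/-- The law of the potentials: they are independent and uniform on `[0, 1]`. -/
noncomputable def potLaw : Measure (Site → I) := Measure.infinitePi fun _ => volume

instance : IsProbabilityMeasure potLaw := by unfold potLaw; infer_instance

end Pool.Agent.Lightning
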