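import Pool.Agent.Lightning.Meas

/-!
# The Lightning Model: flat corners occur at arbitrarily large scales
-/

namespace Pool.Agent.Lightning

open MeasureTheory unitInterval Relation ProbabilityTheory Filter

variable {ε : ℝ}

/-- The interval of potentials close to `1 / 2`. -/
def nearHalf (ε : ℝ) : Set I := {u : I | |(u : ℝ) - 1 / 2| < ε / 8}

lemma measurableSet_nearHalf : MeasurableSet (nearHalf ε) := by
  unfold nearHalf
  exact measurableSet_lt (by fun_prop) (by fun_prop)

lemma volume_nearHalf_pos (hε : 0 < ε) : 0 < volume (nearHalf ε) :=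
  volume_near_pos (1 / 2) ⟨by norm_num, by norm_num⟩ (by positivity)

lemma flatCorners_eq (K : ℤ) (n : ℕ) : {U : Site → I | FlatCorners ε K n U} =
    Set.pi (cornerSites K n : Set Site) fun _ => nearHalf ε := by
  ext U
  simp only [Set.mem_pi, Finset.mem_coe]
  rfl

lemma cornerSites_subset {K : ℤ} {r : ℤ} (hr : 0 ≤ r) : cornerSites K r ⊆ sphere (r + 1) := by
  intro a ha
  unfold cornerSites at ha
  unfold sphere
  simp only [Finset.mem_filter, Finset.mem_product, Finset.mem_Icc, Int.abs_eq_natAbs] at *
  omega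

lemma disjoint_cornerSites {K : ℤ} {m n : ℕ} (h : m ≠ n) :
    Disjoint (cornerSites K m) (cornerSites K n) := by
  rw [Finset.disjoint_left]
  intro a ha hb
  have h1 := cornerSites_subset (by omega) ha
  have h2 := cornerSites_subset (by omega) hb
  unfold sphere at h1 h2
  simp only [Finset.mem_filter, Finset.mem_product, Finset.mem_Icc, Int.abs_eq_natAbs] at *
  omega

lemma card_cornerSites (K : ℤ) (hK : 0 ≤ K) (r : ℤ) :
    (cornerSites K r).card ≤ 4 + 4 * (K + 1).toNat := by
  have hsub : cornerSites K r ⊆ (({r, -r} : Finset ℤ) ×ˢ ({r + 1, -(r + 1)} : Finset ℤ)) ∪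
      (({r + 1, -(r + 1)} : Finset ℤ) ×ˢ (Finset.Icc (r - K) r ∪ Finset.Icc (-r) (K - r))) := by
    intro a ha
    unfold cornerSites at ha
    simp only [Finset.mem_filter, Finset.mem_product, Finset.mem_Icc, Finset.mem_union,
      Finset.mem_insert, Finset.mem_singleton, Int.abs_eq_natAbs] at ha ⊢
    omega
  refine (Finset.card_le_card hsub).trans ((Finset.card_union_le _ _).trans ?_)
  rw [Finset.card_product, Finset.card_product]
  have h1 : ({r, -r} : Finset ℤ).card ≤ 2 := Finset.card_le_two
  have h2 : ({r + 1, -(r + 1)} : Finset ℤ).card ≤ 2 := Finset.card_le_two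
  have h3 : (Finset.Icc (r - K) r ∪ Finset.Icc (-r) (K - r)).card ≤ 2 * (K + 1).toNat := by
    refine (Finset.card_union_le _ _).trans ?_
    rw [Int.card_Icc, Int.card_Icc]
    omega
  have h4 := Nat.mul_le_mul h1 h2
  have h5 := Nat.mul_le_mul h2 h3
  omega

lemma potLaw_flatCorners (K : ℤ) (n : ℕ) : potLaw {U : Site → I | FlatCorners ε K n U} =
    volume (nearHalf ε) ^ (cornerSites K n).card := by
  rw [flatCorners_eq]
  unfold potLaw
  rw [Measure.infinitePi_pi _ fun _ _ => measurableSet_nearHalf, Finset.prod_const]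

lemma iIndepSet_flat (K : ℤ) :
    iIndepSet (fun n : ℕ => {U : Site → I | FlatCorners ε K n U}) potLaw := by
  classical
  have hm : ∀ n : ℕ, MeasurableSet {U : Site → I | FlatCorners ε K n U} := fun n =>
    measurableSet_setOfPred.2 (measurable_flatCorners K n)
  rw [iIndepSet_iff_meas_biInter hm]
  intro s
  have h1 : (⋂ i ∈ s, {U : Site → I | FlatCorners ε K (i : ℕ) U}) =
      Set.pi ((s.biUnion fun i : ℕ => cornerSites K i : Finset Site) : Set Site)
        fun _ => nearHalf ε := by
    ext U
    simp only [Set.mem_iInter, flatCorners_eq, Set.mem_pi, Finset.mem_coe, Finset.mem_biUnion]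
    constructor
    · rintro h a ⟨i, hi, ha⟩
      exact h i hi a ha
    · intro h i hi a ha
      exact h a ⟨i, hi, ha⟩
  rw [h1]
  have h2 : potLaw (Set.pi ((s.biUnion fun i : ℕ => cornerSites K i : Finset Site) : Set Site)
      fun _ => nearHalf ε) = ∏ _a ∈ s.biUnion fun i : ℕ => cornerSites K i,
        volume (nearHalf ε) := by
    unfold potLaw
    rw [Measure.infinitePi_pi _ fun _ _ => measurableSet_nearHalf]
  rw [h2, Finset.prod_biUnion]
  · refine Finset.prod_congr rfl fun i _ => ?_
    rw [potLaw_flatCorners, Finset.prod_const]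
  · intro i _ j _ hij
    exact disjoint_cornerSites hij

/-- Almost surely the corners are flat for infinitely many boxes. -/
lemma ae_frequently_flat (hε : 0 < ε) (K : ℤ) (hK : 0 ≤ K) :
    ∀ᵐ U ∂potLaw, ∃ᶠ n : ℕ in atTop, FlatCorners ε K n U := by
  have hm : ∀ n : ℕ, MeasurableSet {U : Site → I | FlatCorners ε K n U} := fun n =>
    measurableSet_setOfPred.2 (measurable_flatCorners K n)
  have h1 := measure_limsup_eq_one hm (iIndepSet_flat (ε := ε) K) (by
    have hpos := volume_nearHalf_pos hε
    have hle : volume (nearHalf ε) ≤ 1 := prob_le_one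
    have h3 : ∀ n : ℕ, volume (nearHalf ε) ^ (4 + 4 * (K + 1).toNat) ≤
        potLaw {U : Site → I | FlatCorners ε K n U} := by
      intro n
      rw [potLaw_flatCorners]
      exact pow_le_pow_right_of_le_one' hle (card_cornerSites K hK n)
    have h4 : ∑' _ : ℕ, volume (nearHalf ε) ^ (4 + 4 * (K + 1).toNat) = ⊤ :=
      ENNReal.tsum_const_eq_top_of_ne_zero (pow_ne_zero _ hpos.ne')
    exact top_le_iff.1 (h4.symm.le.trans (ENNReal.tsum_le_tsum h3)))
  have h2 : MeasurableSet (limsup (fun n : ℕ => {U : Site → I | FlatCorners ε K n U}) atTop) :=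
    MeasurableSet.measurableSet_limsup hm
  have h3 := (prob_compl_eq_zero_iff h2).2 h1
  rw [ae_iff]
  refine measure_mono_null ?_ h3
  intro U hU hU'
  apply hU
  rw [mem_limsup_iff_frequently_mem] at hU'
  exact hU'

end Pool.Agent.Lightning
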