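import Pool.Agent.Lightning.Defs

/-!
# The Lightning Model: reachability, boxes, splitting boxes
-/

namespace Pool.Agent.Lightning

open MeasureTheory unitInterval Relation

/-! ### Paths with distinct vertices and reachability -/

/-- Reachability by open edges. -/
def Reach (ε : ℝ) (U : Site → I) (a b : Site) : Prop := ReflTransGen (Opn ε U) a b

lemma exists_walk {ε : ℝ} {U : Site → I} {a b : Site} (h : Reach ε U a b) :
    ∃ (n : ℕ) (p : ℕ → Site), p 0 = a ∧ p n = b ∧ ∀ i < n, Opn ε U (p i) (p (i + 1)) := by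
  induction h with
  | refl => exact ⟨0, fun _ => a, rfl, rfl, fun i hi => absurd hi (Nat.not_lt_zero i)⟩
  | @tail b c _ hbc ih =>
    obtain ⟨n, p, h0, hn, hp⟩ := ih
    refine ⟨n + 1, fun i => if i ≤ n then p i else c, ?_, ?_, ?_⟩
    · simp [h0]
    · simp
    · intro i hi
      rcases Nat.lt_succ_iff_lt_or_eq.1 hi with h | h
      · have h1 : i ≤ n := h.le
        have h2 : i + 1 ≤ n := h
        simp only [h1, h2, if_true]
        exact hp i h
      · subst h
        simp only [le_refl, if_true]
        have h3 : ¬ (i + 1 ≤ i) := by omega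
        simp only [h3, if_false, hn]
        exact hbc

lemma walk_reach {ε : ℝ} {U : Site → I} (n : ℕ) (p : ℕ → Site)
    (hp : ∀ i < n, Opn ε U (p i) (p (i + 1))) : Reach ε U (p 0) (p n) := by
  induction n with
  | zero => exact ReflTransGen.refl
  | succ n ih => exact (ih fun i hi => hp i (Nat.lt_succ_of_lt hi)).tail (hp n (Nat.lt_succ_self n))

lemma conn_iff_reach {ε : ℝ} {U : Site → I} {a b : Site} : Conn ε U a b ↔ Reach ε U a b := by
  constructor
  · rintro ⟨n, p, h0, hn, -, hp⟩
    rw [← h0, ← hn]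
    exact walk_reach n p hp
  · intro h
    classical
    have hex : ∃ n, ∃ p : ℕ → Site, p 0 = a ∧ p n = b ∧ ∀ i < n, Opn ε U (p i) (p (i + 1)) :=
      exists_walk h
    obtain ⟨p, h0, hn, hp⟩ := Nat.find_spec hex
    set n := Nat.find hex with hndef
    have key : ∀ i j, i < j → j ≤ n → p i ≠ p j := by
      intro i j hij hj heq
      have hlt : n - (j - i) < n := by omega
      apply Nat.find_min hex hlt
      refine ⟨fun k => if k ≤ i then p k else p (k + (j - i)), ?_, ?_, ?_⟩
      · simp [h0]
      · by_cases hc : n - (j - i) ≤ i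
        · have h1 : n - (j - i) = i := by omega
          have h2 : j = n := by omega
          change (if n - (j - i) ≤ i then p (n - (j - i)) else p (n - (j - i) + (j - i))) = b
          rw [if_pos hc, h1, heq, h2, hn]
        · simp only [hc, if_false]
          have h1 : n - (j - i) + (j - i) = n := by omega
          rw [h1, hn]
      · intro k hk
        by_cases h1 : k + 1 ≤ i
        · have h2 : k ≤ i := by omega
          simp only [h1, h2, if_true]
          exact hp k (by omega)
        · by_cases h2 : k ≤ i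
          · have h3 : k = i := by omega
            simp only [h1, h2, if_true, if_false]
            rw [h3, heq]
            have h4 : i + 1 + (j - i) = j + 1 := by omega
            rw [h4]
            exact hp j (by omega)
          · simp only [h1, h2, if_false]
            have h4 : k + 1 + (j - i) = k + (j - i) + 1 := by omega
            rw [h4]
            exact hp _ (by omega)
    refine ⟨n, p, h0, hn, ?_, hp⟩
    intro i hi j hj heq
    rcases lt_trichotomy i j with h1 | h1 | h1
    · exact absurd heq (key i j h1 hj)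
    · exact h1
    · exact absurd heq.symm (key j i h1 hi)

/-- `a` and `b` are in the same strong cluster. -/
def Strong (ε : ℝ) (U : Site → I) (a b : Site) : Prop := Reach ε U a b ∧ Reach ε U b a

lemma mem_strongCluster {ε : ℝ} {U : Site → I} {a b : Site} :
    b ∈ strongCluster ε U a ↔ Strong ε U a b := by
  unfold strongCluster Strong
  rw [Set.mem_ofPred_eq, conn_iff_reach, conn_iff_reach]

lemma Strong.refl {ε : ℝ} {U : Site → I} (a : Site) : Strong ε U a a :=
  ⟨ReflTransGen.refl, ReflTransGen.refl⟩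

lemma Strong.symm {ε : ℝ} {U : Site → I} {a b : Site} (h : Strong ε U a b) : Strong ε U b a :=
  ⟨h.2, h.1⟩

lemma Strong.trans {ε : ℝ} {U : Site → I} {a b c : Site} (h : Strong ε U a b)
    (h' : Strong ε U b c) : Strong ε U a c :=
  ⟨h.1.trans h'.1, h'.2.trans h.2⟩

lemma strongCluster_eq {ε : ℝ} {U : Site → I} {a b : Site} (h : Strong ε U a b) :
    strongCluster ε U a = strongCluster ε U b := by
  ext c
  rw [mem_strongCluster, mem_strongCluster]
  exact ⟨h.symm.trans, h.trans⟩

lemma Adj.symm {a b : Site} (h : Adj a b) : Adj b a := by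
  unfold Adj at *
  rw [abs_sub_comm b.1, abs_sub_comm b.2]
  exact h

/-- Crossing lemma. -/
lemma exists_crossing {ε : ℝ} {U : Site → I} {P : Site → Prop} {a b : Site}
    (h : Reach ε U a b) (ha : P a) (hb : ¬ P b) :
    ∃ c d, Reach ε U a c ∧ P c ∧ Opn ε U c d ∧ ¬ P d ∧ Reach ε U d b := by
  induction h with
  | refl => exact absurd ha hb
  | @tail b c hab hbc ih =>
    by_cases hP : P b
    · exact ⟨b, c, hab, hP, hbc, hb, ReflTransGen.refl⟩
    · obtain ⟨c', d, h1, h2, h3, h4, h5⟩ := ih hP
      exact ⟨c', d, h1, h2, h3, h4, h5.tail hbc⟩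

/-- A path which avoids `Q` stays open when the potentials are changed in `Q`. -/
lemma reach_congr {ε : ℝ} {U V : Site → I} {Q : Set Site} (hUV : ∀ a, a ∉ Q → U a = V a)
    {x t : Site} (h : Reach ε U x t) (hQ : ∀ y, Reach ε U x y → Reach ε U y t → y ∉ Q) :
    Reach ε V x t := by
  induction h using ReflTransGen.head_induction_on with
  | refl => exact ReflTransGen.refl
  | @head a c hac hct ih =>
    have ha : a ∉ Q := hQ a ReflTransGen.refl (ReflTransGen.head hac hct)
    have hc : c ∉ Q := hQ c (ReflTransGen.single hac) hct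
    have h1 : Opn ε V a c := by
      refine ⟨hac.1, ?_⟩
      rw [← hUV a ha, ← hUV c hc]
      exact hac.2
    exact ReflTransGen.head h1 (ih fun y hy hyt => hQ y (ReflTransGen.head hac hy) hyt)

/-! ### Boxes -/

/-- The box with centre `z` and radius `r`. -/
def box (r : ℤ) (z : Site) : Set Site := {a | |a.1 - z.1| ≤ r ∧ |a.2 - z.2| ≤ r}

/-- The outer boundary of a box. -/
def bdry (r : ℤ) (z : Site) : Set Site := {b | b ∉ box r z ∧ ∃ a ∈ box r z, Adj a b}

open Classical in
/-- The potentials `V` in `B` and `U` outside of `B`. -/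
noncomputable def mix (B : Set Site) (V U : Site → I) : Site → I := fun a => if a ∈ B then V a else U a

lemma mix_of_mem {B : Set Site} {V U : Site → I} {a : Site} (h : a ∈ B) : mix B V U a = V a :=
  if_pos h

lemma mix_of_not_mem {B : Set Site} {V U : Site → I} {a : Site} (h : a ∉ B) :
    mix B V U a = U a := if_neg h

/-- Open edges in the box of radius `r + 1`. -/
def LocOpn (ε : ℝ) (r : ℤ) (z : Site) (U : Site → I) (a b : Site) : Prop :=
  Opn ε U a b ∧ a ∈ box (r + 1) z ∧ b ∈ box (r + 1) z

/-- The box is a hub: the sites of its outer boundary are strongly connected inside of the box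
of radius `r + 1`. -/
def Hub (ε : ℝ) (r : ℤ) (z : Site) (U : Site → I) : Prop :=
  ∀ b ∈ bdry r z, ∀ b' ∈ bdry r z, ReflTransGen (LocOpn ε r z U) b b'

/-- The box with other potentials touches three different infinite strong clusters. -/
def Three (ε : ℝ) (r : ℤ) (z : Site) (U : Site → I) : Prop :=
  ∃ t : Fin 3 → Site, (∀ i, t i ∈ bdry r z) ∧ (∀ i, {b | Strong ε U (t i) b}.Infinite) ∧
    ∀ i j, i ≠ j → ¬ Strong ε U (t i) (t j)

/-- Splitting boxes. -/
def Split (ε : ℝ) (r : ℤ) (z : Site) (U : Site → I) : Prop :=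
  Hub ε r z U ∧ ∃ V : Site → I, Three ε r z (mix (box r z) V U)

lemma Hub.reach {ε : ℝ} {r : ℤ} {z : Site} {U : Site → I} (h : Hub ε r z U) {b b' : Site}
    (hb : b ∈ bdry r z) (hb' : b' ∈ bdry r z) : Reach ε U b b' :=
  ReflTransGen.mono (fun _ _ h => h.1) _ _ (h b hb b' hb')

lemma Hub.strong {ε : ℝ} {r : ℤ} {z : Site} {U : Site → I} (h : Hub ε r z U) {b b' : Site}
    (hb : b ∈ bdry r z) (hb' : b' ∈ bdry r z) : Strong ε U b b' :=
  ⟨h.reach hb hb', h.reach hb' hb⟩

/-- Hubs never destroy connections. -/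
lemma hub_reach {ε : ℝ} {r : ℤ} {z : Site} {U V : Site → I} (h : Hub ε r z V)
    (hUV : ∀ a, a ∉ box r z → U a = V a) {x t : Site} (hx : x ∉ box r z) (ht : t ∉ box r z)
    (hxt : Reach ε U x t) : Reach ε V x t := by
  have key : (t ∉ box r z → Reach ε V x t) ∧
      (t ∈ box r z → ∃ b ∈ bdry r z, Reach ε V x b) := by
    clear ht
    induction hxt with
    | refl => exact ⟨fun _ => ReflTransGen.refl, fun hh => absurd hh hx⟩
    | @tail y y' hxy hyy ih =>
      by_cases hy : y ∈ box r z
      · obtain ⟨b, hb, hxb⟩ := ih.2 hy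
        refine ⟨fun hy' => ?_, fun hy' => ⟨b, hb, hxb⟩⟩
        exact hxb.trans (h.reach hb ⟨hy', y, hy, hyy.1⟩)
      · have hxy' := ih.1 hy
        refine ⟨fun hy' => ?_, fun hy' => ?_⟩
        · refine hxy'.tail ⟨hyy.1, ?_⟩
          rw [← hUV y hy, ← hUV y' hy']
          exact hyy.2
        · exact ⟨y, ⟨hy, y', hy', hyy.1.symm⟩, hxy'⟩
  exact key.1 ht

/-- The hub property only depends on the potentials in the box of radius `r + 1`. -/
lemma Hub.congr {ε : ℝ} {r : ℤ} {z : Site} {U V : Site → I} (h : Hub ε r z U)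
    (hUV : ∀ a ∈ box (r + 1) z, U a = V a) : Hub ε r z V := by
  intro b hb b' hb'
  refine ReflTransGen.mono (fun a c hac => ?_) _ _ (h b hb b' hb')
  refine ⟨⟨hac.1.1, ?_⟩, hac.2⟩
  rw [← hUV a hac.2.1, ← hUV c hac.2.2]
  exact hac.1.2

lemma bdry_subset_box {r : ℤ} {z b : Site} (h : b ∈ bdry r z) : b ∈ box (r + 1) z := by
  obtain ⟨-, a, ha, hab⟩ := h
  unfold box Adj at *
  simp only [Set.mem_ofPred_eq, Int.abs_eq_natAbs] at *
  omega

end Pool.Agent.Lightning
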