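import Pool.Agent.Lightning.Graph

/-!
# The Lightning Model: boxes with flat corners can be made hubs
-/

namespace Pool.Agent.Lightning

open MeasureTheory unitInterval Relation

/-- Sites near the corners of the box of radius `r`, on its outer boundary. -/
noncomputable def cornerSites (K r : ℤ) : Finset Site :=
  (Finset.Icc (-(r + 1)) (r + 1) ×ˢ Finset.Icc (-(r + 1)) (r + 1)).filter fun b =>
    (|b.1| = r ∧ |b.2| = r + 1) ∨ (|b.1| = r + 1 ∧ r - K ≤ |b.2| ∧ |b.2| ≤ r)

/-- The corners are flat: the potentials there are close to `1 / 2`. -/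
def FlatCorners (ε : ℝ) (K r : ℤ) (U : Site → I) : Prop :=
  ∀ b ∈ cornerSites K r, |(U b : ℝ) - 1 / 2| < ε / 8

/-- Linear interpolation between `u` and `1 / 2`. -/
noncomputable def lin (K : ℤ) (u : ℝ) (d : ℤ) : ℝ := u + d / K * (1 / 2 - u)

/-- The target values of the potentials in the box. -/
noncomputable def target (K r : ℤ) (U : Site → I) (a : Site) : ℝ :=
  if r - |a.2| < K then lin K (U (a.1, a.2.sign * (r + 1))) (r - |a.2|)
  else if r - |a.1| < K then lin K (U (a.1.sign * (r + 1), a.2)) (r - |a.1|)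
  else 1 / 2

/-- The potentials in the box are close to their targets. -/
def Good (ε : ℝ) (K r : ℤ) (U : Site → I) : Prop :=
  ∀ a ∈ box r 0, |(U a : ℝ) - target K r U a| < ε / 8

section

variable {ε : ℝ} {K r : ℤ} {U : Site → I}

/-- Local strong connection. -/
def LS (ε : ℝ) (r : ℤ) (U : Site → I) (a b : Site) : Prop :=
  ReflTransGen (LocOpn ε r 0 U) a b ∧ ReflTransGen (LocOpn ε r 0 U) b a

lemma LS.refl (a : Site) : LS ε r U a a := ⟨ReflTransGen.refl, ReflTransGen.refl⟩
lemma LS.symm {a b : Site} (h : LS ε r U a b) : LS ε r U b a := ⟨h.2, h.1⟩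
lemma LS.trans {a b c : Site} (h : LS ε r U a b) (h' : LS ε r U b c) : LS ε r U a c :=
  ⟨h.1.trans h'.1, h'.2.trans h.2⟩

lemma LS.link {a b : Site} (hab : Adj a b) (ha : a ∈ box (r + 1) 0) (hb : b ∈ box (r + 1) 0)
    (h : |(U a : ℝ) - U b| < ε) : LS ε r U a b := by
  rw [abs_lt] at h
  exact ⟨ReflTransGen.single ⟨⟨hab, by linarith⟩, ha, hb⟩,
    ReflTransGen.single ⟨⟨hab.symm, by linarith⟩, hb, ha⟩⟩

lemma lin_close (hK : 0 < K) {u : ℝ} {d : ℤ} (hd0 : 0 ≤ d) (hdK : d ≤ K) :
    |lin K u d - 1 / 2| ≤ |u - 1 / 2| := by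
  have hKR : (0 : ℝ) < K := by exact_mod_cast hK
  have h0 : (0 : ℝ) ≤ d := by exact_mod_cast hd0
  have h1 : (d : ℝ) ≤ K := by exact_mod_cast hdK
  have h2 : lin K u d - 1 / 2 = (1 - d / K) * (u - 1 / 2) := by
    unfold lin
    ring
  rw [h2, abs_mul]
  have h3 : |1 - (d : ℝ) / K| ≤ 1 := by
    rw [abs_le]
    have : (0 : ℝ) ≤ d / K := by positivity
    have h4 : (d : ℝ) / K ≤ 1 := by rw [div_le_one hKR]; exact h1
    constructor <;> linarith
  calc |1 - (d : ℝ) / K| * |u - 1 / 2| ≤ 1 * |u - 1 / 2| := by gcongr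
    _ = _ := one_mul _

lemma half_le (u : I) : |(u : ℝ) - 1 / 2| ≤ 1 / 2 := by
  have h0 := u.2.1
  have h1 := u.2.2
  rw [abs_le]
  constructor <;> linarith

lemma lin_step (hK : 0 < K) (hKe : 1 ≤ K * ε) (u : I) (d : ℤ) :
    |lin K u d - lin K u (d + 1)| ≤ ε / 2 := by
  have hKR : (0 : ℝ) < K := by exact_mod_cast hK
  have h2 : lin K u d - lin K u (d + 1) = ((u : ℝ) - 1 / 2) * (1 / K) := by
    unfold lin
    push_cast
    field_simp
    ring
  rw [h2, abs_mul, abs_of_pos (by positivity : (0 : ℝ) < 1 / K)]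
  have h3 : (1 : ℝ) / K ≤ ε := by
    rw [div_le_iff₀ hKR]
    linarith
  have h4 := half_le u
  calc |(u : ℝ) - 1 / 2| * (1 / K) ≤ 1 / 2 * ε := by gcongr
    _ = ε / 2 := by ring

/-- flat sites -/
def Flat4 (ε : ℝ) (U : Site → I) (a : Site) : Prop := |(U a : ℝ) - 1 / 2| < ε / 4

lemma Flat4.link (hε : 0 < ε) {a b : Site} (hab : Adj a b) (ha : a ∈ box (r + 1) 0)
    (hb : b ∈ box (r + 1) 0) (hfa : Flat4 ε U a) (hfb : Flat4 ε U b) : LS ε r U a b := by
  apply LS.link hab ha hb
  unfold Flat4 at *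
  rw [abs_lt] at *
  constructor <;> linarith

lemma flat_row (hε : 0 < ε) {m y : ℤ} (hm : m ≤ r) (hy : |y| ≤ r)
    (h : ∀ x, |x| ≤ m → Flat4 ε U (x, y)) : ∀ (n : ℕ) (x : ℤ), x.natAbs = n → |x| ≤ m →
      LS ε r U (x, y) (0, y) := by
  intro n
  induction n with
  | zero =>
    intro x hx _
    have : x = 0 := by omega
    rw [this]
    exact LS.refl _
  | succ n ih =>
    intro x hx hxm
    have h0 : (x - x.sign).natAbs = n := by
      rcases lt_trichotomy x 0 with h | h | h
      · rw [Int.sign_eq_neg_one_of_neg h]; omega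
      · omega
      · rw [Int.sign_eq_one_of_pos h]; omega
    have h1 : |x - x.sign| ≤ m := by
      rw [Int.abs_eq_natAbs] at hxm ⊢
      omega
    have h2 : |x - (x - x.sign)| = 1 := by
      rw [sub_sub_cancel]
      rcases lt_trichotomy x 0 with h | h | h
      · rw [Int.sign_eq_neg_one_of_neg h]; rfl
      · omega
      · rw [Int.sign_eq_one_of_pos h]; rfl
    refine LS.trans (Flat4.link hε ?_ ?_ ?_ (h x hxm) (h _ h1)) (ih _ h0 h1)
    · unfold Adj
      simp only [sub_self, abs_zero, add_zero]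
      exact h2
    · unfold box
      simp only [Set.mem_ofPred_eq, Prod.fst_zero, Prod.snd_zero, sub_zero]
      constructor <;> linarith
    · unfold box
      simp only [Set.mem_ofPred_eq, Prod.fst_zero, Prod.snd_zero, sub_zero]
      constructor <;> linarith

lemma flat_col (hε : 0 < ε) {m x : ℤ} (hm : m ≤ r) (hx : |x| ≤ r)
    (h : ∀ y, |y| ≤ m → Flat4 ε U (x, y)) : ∀ (n : ℕ) (y : ℤ), y.natAbs = n → |y| ≤ m →
      LS ε r U (x, y) (x, 0) := by
  intro n
  induction n with
  | zero =>
    intro y hy _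
    have : y = 0 := by omega
    rw [this]
    exact LS.refl _
  | succ n ih =>
    intro y hy hym
    have h0 : (y - y.sign).natAbs = n := by
      rcases lt_trichotomy y 0 with h | h | h
      · rw [Int.sign_eq_neg_one_of_neg h]; omega
      · omega
      · rw [Int.sign_eq_one_of_pos h]; omega
    have h1 : |y - y.sign| ≤ m := by
      rw [Int.abs_eq_natAbs] at hym ⊢
      omega
    have h2 : |y - (y - y.sign)| = 1 := by
      rw [sub_sub_cancel]
      rcases lt_trichotomy y 0 with h | h | h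
      · rw [Int.sign_eq_neg_one_of_neg h]; rfl
      · omega
      · rw [Int.sign_eq_one_of_pos h]; rfl
    refine LS.trans (Flat4.link hε ?_ ?_ ?_ (h y hym) (h _ h1)) (ih _ h0 h1)
    · unfold Adj
      simp only [sub_self, abs_zero, zero_add]
      exact h2
    · unfold box
      simp only [Set.mem_ofPred_eq, Prod.fst_zero, Prod.snd_zero, sub_zero]
      constructor <;> linarith
    · unfold box
      simp only [Set.mem_ofPred_eq, Prod.fst_zero, Prod.snd_zero, sub_zero]
      constructor <;> linarith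

/-! ### Values of the potentials near the boundary -/

section hub

variable (hε : 0 < ε) (hK : 0 < K) (hKr : K ≤ r) (hKe : 1 ≤ K * ε) (hF : FlatCorners ε K r U)
  (hG : Good ε K r U)

include hF in
lemma flatA {s s' : ℤ} (hr : 0 ≤ r) (hs : s = 1 ∨ s = -1) (hs' : s' = 1 ∨ s' = -1) :
    |(U (s * r, s' * (r + 1)) : ℝ) - 1 / 2| < ε / 8 := by
  apply hF
  unfold cornerSites
  simp only [Finset.mem_filter, Finset.mem_product, Finset.mem_Icc, Int.abs_eq_natAbs]
  rcases hs with rfl | rfl <;> rcases hs' with rfl | rfl <;> omega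

include hF in
lemma flatB {s y : ℤ} (hr : 0 ≤ r) (hs : s = 1 ∨ s = -1) (hy : |y| ≤ r) (hy' : r - K ≤ |y|) :
    |(U (s * (r + 1), y) : ℝ) - 1 / 2| < ε / 8 := by
  apply hF
  unfold cornerSites
  simp only [Finset.mem_filter, Finset.mem_product, Finset.mem_Icc, Int.abs_eq_natAbs] at *
  rcases hs with rfl | rfl <;> omega

lemma sign_mul {s m : ℤ} (hs : s = 1 ∨ s = -1) (hm : 0 < m) : (s * m).sign = s := by
  rcases hs with rfl | rfl
  · rw [one_mul, Int.sign_eq_one_of_pos hm]
  · rw [Int.sign_eq_neg_one_of_neg (by omega)]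

lemma abs_mul' {s m : ℤ} (hs : s = 1 ∨ s = -1) (hm : 0 ≤ m) : |s * m| = m := by
  rcases hs with rfl | rfl
  · rw [one_mul, abs_of_nonneg hm]
  · rw [neg_one_mul, abs_neg, abs_of_nonneg hm]

include hKr hG hK in
lemma val_col {s x d : ℤ} (hs : s = 1 ∨ s = -1) (hx : |x| ≤ r) (hd0 : 0 ≤ d) (hdK : d < K) :
    |(U (x, s * (r - d)) : ℝ) - lin K (U (x, s * (r + 1))) d| < ε / 8 := by
  have hpos : 0 < r - d := by omega
  have h1 := hG (x, s * (r - d)) (by
    unfold box
    simp only [Set.mem_ofPred_eq, Prod.fst_zero, Prod.snd_zero, sub_zero]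
    refine ⟨hx, ?_⟩
    rw [abs_mul' hs hpos.le]
    omega)
  unfold target at h1
  simp only [abs_mul' hs hpos.le, sign_mul hs hpos, sub_sub_cancel, if_pos hdK] at h1
  exact h1

include hKr hG hK in
lemma val_row {s y d : ℤ} (hs : s = 1 ∨ s = -1) (hy : |y| ≤ r - K) (hd0 : 0 ≤ d) (hdK : d < K) :
    |(U (s * (r - d), y) : ℝ) - lin K (U (s * (r + 1), y)) d| < ε / 8 := by
  have hpos : 0 < r - d := by omega
  have h1 := hG (s * (r - d), y) (by
    unfold box
    simp only [Set.mem_ofPred_eq, Prod.fst_zero, Prod.snd_zero, sub_zero]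
    refine ⟨?_, by linarith⟩
    rw [abs_mul' hs hpos.le]
    omega)
  unfold target at h1
  have h2 : ¬ (r - |y| < K) := by omega
  simp only [abs_mul' hs hpos.le, sign_mul hs hpos, sub_sub_cancel, if_pos hdK, if_neg h2] at h1
  exact h1

include hG hKr hK hε in
lemma flat_inner {x y : ℤ} (hx : |x| ≤ r - K) (hy : |y| ≤ r - K) : Flat4 ε U (x, y) := by
  have h1 := hG (x, y) (by
    unfold box
    simp only [Set.mem_ofPred_eq, Prod.fst_zero, Prod.snd_zero, sub_zero]
    constructor <;> linarith)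
  unfold target at h1
  have h2 : ¬ (r - |y| < K) := by omega
  have h3 : ¬ (r - |x| < K) := by omega
  simp only [if_neg h2, if_neg h3] at h1
  unfold Flat4
  linarith

include hG hF hKr hK hε in
lemma flat_line {s x : ℤ} (hs : s = 1 ∨ s = -1) (hx : |x| ≤ r) :
    Flat4 ε U (x, s * (r - K)) := by
  have habs : |s * (r - K)| = r - K := abs_mul' hs (by omega)
  by_cases hxK : |x| ≤ r - K
  · exact flat_inner hε hK hKr hG hxK habs.le
  · have h1 := hG (x, s * (r - K)) (by
      unfold box
      simp only [Set.mem_ofPred_eq, Prod.fst_zero, Prod.snd_zero, sub_zero]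
      refine ⟨hx, ?_⟩
      rw [habs]
      omega)
    unfold target at h1
    have h2 : ¬ (r - |s * (r - K)| < K) := by rw [habs]; omega
    have h3 : r - |x| < K := by omega
    simp only [if_neg h2, if_pos h3] at h1
    have hx0 : x.sign = 1 ∨ x.sign = -1 := by
      rcases lt_trichotomy x 0 with h | h | h
      · exact Or.inr (Int.sign_eq_neg_one_of_neg h)
      · rw [h, abs_zero] at hxK
        omega
      · exact Or.inl (Int.sign_eq_one_of_pos h)
    have h4 := flatB (U := U) (ε := ε) hF (by omega : 0 ≤ r) hx0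
      (by rw [habs]; omega : |s * (r - K)| ≤ r) (by rw [habs])
    have h5 := lin_close (u := (U (x.sign * (r + 1), s * (r - K)) : ℝ)) (d := r - |x|) hK
      (by omega) (by omega)
    unfold Flat4
    rw [abs_lt] at *
    have h6 := abs_le.1 (h5.trans (abs_lt.2 h4).le)
    constructor <;> linarith [h6.1, h6.2]

lemma adj_col {s x m : ℤ} (hs : s = 1 ∨ s = -1) : Adj (x, s * (m + 1)) (x, s * m) := by
  unfold Adj
  simp only [sub_self, abs_zero, zero_add]
  rcases hs with rfl | rfl
  · have : (1 : ℤ) * (m + 1) - 1 * m = 1 := by ring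
    rw [this, abs_one]
  · have : (-1 : ℤ) * (m + 1) - -1 * m = -1 := by ring
    rw [this, abs_neg, abs_one]

lemma adj_row {s y m : ℤ} (hs : s = 1 ∨ s = -1) : Adj (s * (m + 1), y) (s * m, y) := by
  unfold Adj
  simp only [sub_self, abs_zero, add_zero]
  rcases hs with rfl | rfl
  · have : (1 : ℤ) * (m + 1) - 1 * m = 1 := by ring
    rw [this, abs_one]
  · have : (-1 : ℤ) * (m + 1) - -1 * m = -1 := by ring
    rw [this, abs_neg, abs_one]

lemma mem_box_col {s x m : ℤ} (hs : s = 1 ∨ s = -1) (hx : |x| ≤ r) (hm0 : 0 ≤ m)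
    (hm : m ≤ r + 1) : ((x, s * m) : Site) ∈ box (r + 1) 0 := by
  unfold box
  simp only [Set.mem_ofPred_eq, Prod.fst_zero, Prod.snd_zero, sub_zero]
  rw [abs_mul' hs hm0]
  exact ⟨by linarith, hm⟩

lemma mem_box_row {s y m : ℤ} (hs : s = 1 ∨ s = -1) (hy : |y| ≤ r) (hm0 : 0 ≤ m)
    (hm : m ≤ r + 1) : ((s * m, y) : Site) ∈ box (r + 1) 0 := by
  unfold box
  simp only [Set.mem_ofPred_eq, Prod.fst_zero, Prod.snd_zero, sub_zero]
  rw [abs_mul' hs hm0]
  exact ⟨hm, by linarith⟩

include hε hG hKr hKe hK in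
lemma col_chain {s x : ℤ} (hs : s = 1 ∨ s = -1) (hx : |x| ≤ r) : ∀ n : ℕ, (n : ℤ) < K →
    LS ε r U (x, s * (r + 1)) (x, s * (r - n)) := by
  intro n
  induction n with
  | zero =>
    intro _
    have h1 := val_col hK hKr hG hs hx (le_refl 0) hK
    simp only [lin, Int.cast_zero, zero_div, zero_mul, add_zero, sub_zero] at h1
    simp only [Nat.cast_zero, sub_zero]
    apply LS.link (adj_col hs) (mem_box_col hs hx (by omega) le_rfl)
      (mem_box_col hs hx (by omega) (by omega))
    rw [abs_sub_comm]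
    linarith
  | succ n ih =>
    intro hn
    push_cast at hn
    have h0 := ih (by omega)
    have h1 := val_col (d := n) hK hKr hG hs hx (by omega) (by omega)
    have h2 := val_col (d := n + 1) hK hKr hG hs hx (by omega) hn
    have h3 := lin_step hK hKe (U (x, s * (r + 1))) n
    refine h0.trans ?_
    have h4 : (r : ℤ) - n = (r - (n + 1 : ℤ)) + 1 := by ring
    have h5 : LS ε r U (x, s * ((r - (n + 1 : ℤ)) + 1)) (x, s * (r - (n + 1 : ℤ))) := by
      apply LS.link (adj_col hs) (mem_box_col hs hx (by omega) (by omega))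
        (mem_box_col hs hx (by omega) (by omega))
      rw [← h4]
      rw [abs_lt] at h1 h2 ⊢
      rw [abs_le] at h3
      constructor <;> linarith [h3.1, h3.2]
    rw [← h4] at h5
    push_cast
    exact h5

include hε hG hKr hKe hK in
lemma row_chain {s y : ℤ} (hs : s = 1 ∨ s = -1) (hy : |y| ≤ r - K) : ∀ n : ℕ, (n : ℤ) < K →
    LS ε r U (s * (r + 1), y) (s * (r - n), y) := by
  intro n
  have hy' : |y| ≤ r := by linarith
  induction n with
  | zero =>
    intro _
    have h1 := val_row hK hKr hG hs hy (le_refl 0) hK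
    simp only [lin, Int.cast_zero, zero_div, zero_mul, add_zero, sub_zero] at h1
    simp only [Nat.cast_zero, sub_zero]
    apply LS.link (adj_row hs) (mem_box_row hs hy' (by omega) le_rfl)
      (mem_box_row hs hy' (by omega) (by omega))
    rw [abs_sub_comm]
    linarith
  | succ n ih =>
    intro hn
    push_cast at hn
    have h0 := ih (by omega)
    have h1 := val_row (d := n) hK hKr hG hs hy (by omega) (by omega)
    have h2 := val_row (d := n + 1) hK hKr hG hs hy (by omega) hn
    have h3 := lin_step hK hKe (U (s * (r + 1), y)) n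
    refine h0.trans ?_
    have h4 : (r : ℤ) - n = (r - (n + 1 : ℤ)) + 1 := by ring
    have h5 : LS ε r U (s * ((r - (n + 1 : ℤ)) + 1), y) (s * (r - (n + 1 : ℤ)), y) := by
      apply LS.link (adj_row hs) (mem_box_row hs hy' (by omega) (by omega))
        (mem_box_row hs hy' (by omega) (by omega))
      rw [← h4]
      rw [abs_lt] at h1 h2 ⊢
      rw [abs_le] at h3
      constructor <;> linarith [h3.1, h3.2]
    rw [← h4] at h5
    push_cast
    exact h5

/-- The last step towards the flat region. -/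
lemma last_step (hε : 0 < ε) (hK : 0 < K) (hKe : 1 ≤ K * ε) {a b : Site} {u : I}
    (ha : |(U a : ℝ) - lin K u (K - 1)| < ε / 8) (hb : Flat4 ε U b) : |(U a : ℝ) - U b| < ε := by
  have h3 := lin_step hK hKe u (K - 1)
  have h4 : lin K (u : ℝ) (K - 1 + 1) = 1 / 2 := by
    have hKR : (K : ℝ) ≠ 0 := by exact_mod_cast hK.ne'
    unfold lin
    push_cast
    field_simp
    ring
  rw [h4] at h3
  unfold Flat4 at hb
  rw [abs_lt] at *
  rw [abs_le] at h3
  constructor <;> linarith [h3.1, h3.2, ha.1, ha.2, hb.1, hb.2]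

include hε hG hKr hKe hK hF in
lemma col_center {s x : ℤ} (hs : s = 1 ∨ s = -1) (hx : |x| ≤ r) :
    LS ε r U (x, s * (r + 1)) 0 := by
  have h1 := col_chain hε hK hKr hKe hG hs hx (K - 1).toNat (by omega)
  have hc : (((K - 1).toNat : ℕ) : ℤ) = K - 1 := Int.toNat_of_nonneg (by omega)
  rw [hc] at h1
  have h2 : LS ε r U (x, s * (r - (K - 1))) (x, s * (r - K)) := by
    have h3 : r - (K - 1) = r - K + 1 := by ring
    rw [h3]
    apply LS.link (adj_col hs) (mem_box_col hs hx (by omega) (by omega))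
      (mem_box_col hs hx (by omega) (by omega))
    rw [← h3]
    exact last_step hε hK hKe (val_col hK hKr hG hs hx (by omega) (by omega))
      (flat_line hε hK hKr hF hG hs hx)
  have h4 : LS ε r U (x, s * (r - K)) (0, s * (r - K)) :=
    flat_row hε (le_refl r) (by rw [abs_mul' hs (by omega)]; omega)
      (fun x' hx' => flat_line hε hK hKr hF hG hs hx') x.natAbs x rfl hx
  have h5 : LS ε r U (0, s * (r - K)) (0, 0) :=
    flat_col hε (by omega : r - K ≤ r) (by rw [abs_zero]; omega)
      (fun y hy => flat_inner hε hK hKr hG (by rw [abs_zero]; omega) hy) _ _ rfl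
      (by rw [abs_mul' hs (by omega)])
  exact ((h1.trans h2).trans h4).trans h5

include hε hG hKr hKe hK hF in
lemma row_center {s y : ℤ} (hs : s = 1 ∨ s = -1) (hy : |y| ≤ r) :
    LS ε r U (s * (r + 1), y) 0 := by
  by_cases hyK : |y| ≤ r - K
  · have h1 := row_chain hε hK hKr hKe hG hs hyK (K - 1).toNat (by omega)
    have hc : (((K - 1).toNat : ℕ) : ℤ) = K - 1 := Int.toNat_of_nonneg (by omega)
    rw [hc] at h1
    have h2 : LS ε r U (s * (r - (K - 1)), y) (s * (r - K), y) := by
      have h3 : r - (K - 1) = r - K + 1 := by ring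
      rw [h3]
      apply LS.link (adj_row hs) (mem_box_row hs hy (by omega) (by omega))
        (mem_box_row hs hy (by omega) (by omega))
      rw [← h3]
      exact last_step hε hK hKe (val_row hK hKr hG hs hyK (by omega) (by omega))
        (flat_inner hε hK hKr hG (by rw [abs_mul' hs (by omega)]) hyK)
    have h4 : LS ε r U (s * (r - K), y) (0, y) :=
      flat_row hε (by omega : r - K ≤ r) hy
        (fun x' hx' => flat_inner hε hK hKr hG hx' hyK) _ _ rfl
        (by rw [abs_mul' hs (by omega)])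
    have h5 : LS ε r U (0, y) (0, 0) :=
      flat_col hε (by omega : r - K ≤ r) (by rw [abs_zero]; omega)
        (fun y hy => flat_inner hε hK hKr hG (by rw [abs_zero]; omega) hy) _ _ rfl hyK
    exact ((h1.trans h2).trans h4).trans h5
  · -- near a corner
    have hr : 0 ≤ r := by omega
    have hb := flatB (U := U) (ε := ε) hF hr hs hy (by omega)
    have hys : y.sign = 1 ∨ y.sign = -1 := by
      rcases lt_trichotomy y 0 with h | h | h
      · exact Or.inr (Int.sign_eq_neg_one_of_neg h)
      · rw [h, abs_zero] at hyK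
        omega
      · exact Or.inl (Int.sign_eq_one_of_pos h)
    have hyy : y.sign * (r - (r - |y|)) = y := by
      rw [sub_sub_cancel]
      exact Int.sign_mul_abs y
    have hxr : |s * r| ≤ r := by rw [abs_mul' hs hr]
    have h1 := val_col (d := r - |y|) hK hKr hG hys hxr (by omega) (by omega)
    rw [hyy] at h1
    have h2 := flatA (U := U) (ε := ε) hF hr hs hys
    have h3 := lin_close (u := (U (s * r, y.sign * (r + 1)) : ℝ)) (d := r - |y|) hK (by omega)
      (by omega)
    have h4 : LS ε r U (s * (r + 1), y) (s * r, y) := by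
      apply LS.link (adj_row hs) (mem_box_row hs hy (by omega) (by omega))
        (mem_box_row hs hy (by omega) (by omega))
      have h6 := abs_le.1 (h3.trans h2.le)
      rw [abs_lt] at *
      constructor <;> linarith [h6.1, h6.2, h1.1, h1.2, hb.1, hb.2]
    have h5 := col_chain hε hK hKr hKe hG hys hxr (r - |y|).toNat (by omega)
    have hc : (((r - |y|).toNat : ℕ) : ℤ) = r - |y| := Int.toNat_of_nonneg (by omega)
    rw [hc, hyy] at h5
    exact (h4.trans h5.symm).trans (col_center hε hK hKr hKe hF hG hys hxr)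

include hε hG hKr hKe hK hF in
/-- A box with flat corners and good potentials is a hub. -/
theorem hub_of_good : Hub ε r 0 U := by
  have key : ∀ b ∈ bdry r 0, LS ε r U b 0 := by
    rintro ⟨x, y⟩ ⟨hb, ⟨a1, a2⟩, ha, hab⟩
    have hcases : (∃ s : ℤ, (s = 1 ∨ s = -1) ∧ y = s * (r + 1) ∧ |x| ≤ r) ∨
        (∃ s : ℤ, (s = 1 ∨ s = -1) ∧ x = s * (r + 1) ∧ |y| ≤ r) := by
      unfold box Adj at *
      simp only [Set.mem_ofPred_eq, Prod.fst_zero, Prod.snd_zero, sub_zero, Int.abs_eq_natAbs] at *
      by_cases h1 : y = r + 1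
      · exact Or.inl ⟨1, Or.inl rfl, by omega, by omega⟩
      · by_cases h2 : y = -(r + 1)
        · exact Or.inl ⟨-1, Or.inr rfl, by omega, by omega⟩
        · by_cases h3 : x = r + 1
          · exact Or.inr ⟨1, Or.inl rfl, by omega, by omega⟩
          · exact Or.inr ⟨-1, Or.inr rfl, by omega, by omega⟩
    rcases hcases with ⟨s, hs, rfl, hx⟩ | ⟨s, hs, rfl, hy⟩
    · exact col_center hε hK hKr hKe hF hG hs hx
    · exact row_center hε hK hKr hKe hF hG hs hy
  intro b hb b' hb'
  exact ((key b hb).trans (key b' hb').symm).1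

end hub

end

end Pool.Agent.Lightning
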