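import Pool.Agent.Lightning.Flat

/-!
# The Lightning Model: there are at most two infinite strong clusters
-/

namespace Pool.Agent.Lightning

open MeasureTheory unitInterval Relation ProbabilityTheory Filter

variable {ε : ℝ}

/-! ### Step A: a box with flat corners which touches three infinite strong clusters -/

/-- The event that the corners are flat and the box touches three infinite strong clusters. -/
def EvA (ε : ℝ) (K r : ℤ) : Set (Site → I) := {U | FlatCorners ε K r U ∧ Three ε r 0 U}

lemma measurableSet_EvA (K r : ℤ) : MeasurableSet (EvA ε K r) :=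
  measurableSet_setOfPred.2 ((measurable_flatCorners K r).and (measurable_three r 0))

lemma three_of_three' {U : Site → I} {r : ℤ} {t : Fin 3 → Site} (ht : ∀ i, t i ∈ box r 0)
    (h1 : ∀ i, {b | Strong ε U (t i) b}.Infinite) (h2 : ∀ i j, i ≠ j → ¬ Strong ε U (t i) (t j)) :
    Three ε r 0 U := by
  have h3 : ∀ i, ∃ d ∈ bdry r 0, Strong ε U (t i) d := by
    intro i
    obtain ⟨b, hb, hbr⟩ := (h1 i).exists_notMem_finite (box_finite r 0)
    obtain ⟨d, hd, h4, h5⟩ := exists_bdry hb.1 (ht i) hbr
    exact ⟨d, hd, h4, h5.trans hb.2⟩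
  choose d hd hdt using h3
  refine ⟨d, hd, fun i => ?_, fun i j hij h => ?_⟩
  · refine (h1 i).mono fun b hb => ?_
    exact (hdt i).symm.trans hb
  · exact h2 i j hij (((hdt i).trans h).trans (hdt j).symm)

lemma exists_box (t : Fin 3 → Site) : ∃ m : ℕ, ∀ n : ℕ, m ≤ n → ∀ i, t i ∈ box n 0 := by
  refine ⟨∑ i, ((t i).1.natAbs + (t i).2.natAbs), fun n hn i => ?_⟩
  have h1 : (t i).1.natAbs + (t i).2.natAbs ≤ ∑ i, ((t i).1.natAbs + (t i).2.natAbs) :=
    Finset.single_le_sum (f := fun i => (t i).1.natAbs + (t i).2.natAbs)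
      (fun _ _ => Nat.zero_le _) (Finset.mem_univ i)
  unfold box
  simp only [Set.mem_ofPred_eq, Prod.fst_zero, Prod.snd_zero, sub_zero, Int.abs_eq_natAbs]
  omega

lemma stepA (hε : 0 < ε) (K : ℕ) (h : potLaw {U | Three' ε U} ≠ 0) :
    ∃ n : ℕ, K ≤ n ∧ potLaw (EvA ε K n) ≠ 0 := by
  by_contra hcon
  push Not at hcon
  apply h
  have h1 := ae_frequently_flat hε (K : ℤ) (by positivity)
  have h2 : ∀ᵐ U ∂potLaw, ∀ n : ℕ, K ≤ n → U ∉ EvA ε K n := by
    rw [ae_all_iff]
    intro n
    rw [ae_iff]
    by_cases hn : K ≤ n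
    · refine measure_mono_null ?_ (hcon n hn)
      intro U hU
      simp only [Set.mem_ofPred_eq] at hU
      push Not at hU
      exact hU.2
    · convert measure_empty (μ := potLaw)
      ext U
      simp only [Set.mem_ofPred_eq, Set.mem_empty_iff_false, iff_false]
      push Not
      intro hn'
      exact absurd hn' hn
  have h3 : ∀ᵐ U ∂potLaw, ¬ Three' ε U := by
    filter_upwards [h1, h2] with U hU1 hU2 ⟨t, ht1, ht2⟩
    obtain ⟨m, hm⟩ := exists_box t
    obtain ⟨n, hn, hF⟩ := (frequently_atTop.1 hU1) (max m K)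
    exact hU2 n (le_trans (le_max_right _ _) hn)
      ⟨hF, three_of_three' (hm n (le_trans (le_max_left _ _) hn)) ht1 ht2⟩
  rw [ae_iff] at h3
  simpa using h3

/-! ### Step B: splitting boxes have positive probability -/

/-- Potentials outside of the box which can be completed in the box to `EvA`. -/
def Compl (ε : ℝ) (K r : ℤ) : Set (Site → I) :=
  {U | potLaw {V | mix (box r 0) V U ∈ EvA ε K r} ≠ 0}

lemma measurableSet_Compl (K r : ℤ) : MeasurableSet (Compl ε K r) := by
  have h1 : MeasurableSet ((fun p : (Site → I) × (Site → I) => mix (box r 0) p.2 p.1) ⁻¹'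
      EvA ε K r) := measurable_mix _ (measurableSet_EvA K r)
  have h2 := measurable_measure_prodMk_left (ν := potLaw) h1
  have h3 : MeasurableSet {U : Site → I | potLaw (Prod.mk U ⁻¹'
      ((fun p : (Site → I) × (Site → I) => mix (box r 0) p.2 p.1) ⁻¹' EvA ε K r)) = 0} :=
    h2 (measurableSet_singleton 0)
  exact h3.compl

lemma mix_mix (B : Set Site) (V W U : Site → I) : mix B V (mix B W U) = mix B V U := by
  funext a
  by_cases h : a ∈ B
  · rw [mix_of_mem h, mix_of_mem h]
  · rw [mix_of_not_mem h, mix_of_not_mem h, mix_of_not_mem h]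

lemma corner_not_mem_box {K r : ℤ} {a : Site} (h : a ∈ cornerSites K r) : a ∉ box r 0 := by
  unfold cornerSites at h
  unfold box
  simp only [Finset.mem_filter, Finset.mem_product, Finset.mem_Icc, Set.mem_ofPred_eq,
    Prod.fst_zero, Prod.snd_zero, sub_zero, Int.abs_eq_natAbs] at *
  omega

lemma flatCorners_mix {K r : ℤ} {V U : Site → I} :
    FlatCorners ε K r (mix (box r 0) V U) ↔ FlatCorners ε K r U := by
  unfold FlatCorners
  constructor
  · intro h b hb
    have := h b hb
    rwa [mix_of_not_mem (corner_not_mem_box hb)] at this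
  · intro h b hb
    rw [mix_of_not_mem (corner_not_mem_box hb)]
    exact h b hb

lemma target_mix {K r : ℤ} (hK : K ≤ r) (hr : 0 ≤ r) {V U : Site → I} (a : Site) :
    target K r (mix (box r 0) V U) a = target K r U a := by
  have h1 : ∀ y : ℤ, r - |y| < K → ∀ x : ℤ, ((x, y.sign * (r + 1)) : Site) ∉ box r 0 := by
    intro y hy x hmem
    unfold box at hmem
    simp only [Set.mem_ofPred_eq, Prod.fst_zero, Prod.snd_zero, sub_zero] at hmem
    have h2 := hmem.2
    rcases lt_trichotomy y 0 with h | h | h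
    · rw [Int.sign_eq_neg_one_of_neg h, neg_one_mul, abs_neg, abs_of_nonneg (by omega)] at h2
      omega
    · rw [h, abs_zero] at hy
      omega
    · rw [Int.sign_eq_one_of_pos h, one_mul, abs_of_nonneg (by omega)] at h2
      omega
  have h1' : ∀ x : ℤ, r - |x| < K → ∀ y : ℤ, ((x.sign * (r + 1), y) : Site) ∉ box r 0 := by
    intro x hx y hmem
    unfold box at hmem
    simp only [Set.mem_ofPred_eq, Prod.fst_zero, Prod.snd_zero, sub_zero] at hmem
    have h2 := hmem.1
    rcases lt_trichotomy x 0 with h | h | h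
    · rw [Int.sign_eq_neg_one_of_neg h, neg_one_mul, abs_neg, abs_of_nonneg (by omega)] at h2
      omega
    · rw [h, abs_zero] at hx
      omega
    · rw [Int.sign_eq_one_of_pos h, one_mul, abs_of_nonneg (by omega)] at h2
      omega
  unfold target
  split_ifs with h2 h3
  · rw [mix_of_not_mem (h1 _ h2 _)]
  · rw [mix_of_not_mem (h1' _ h3 _)]
  · rfl

lemma target_mem {K r : ℤ} (hK : 0 < K) (U : Site → I) {a : Site} (ha : a ∈ box r 0) :
    target K r U a ∈ Set.Icc (0 : ℝ) 1 := by
  have key : ∀ (u : I) (d : ℤ), 0 ≤ d → d < K → lin K u d ∈ Set.Icc (0 : ℝ) 1 := by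
    intro u d hd0 hdK
    have h1 := (lin_close (u := (u : ℝ)) hK hd0 hdK.le).trans (half_le u)
    rw [abs_le] at h1
    constructor <;> linarith [h1.1, h1.2]
  unfold box at ha
  simp only [Set.mem_ofPred_eq, Prod.fst_zero, Prod.snd_zero, sub_zero] at ha
  unfold target
  split_ifs with h2 h3
  · exact key _ _ (by linarith [ha.2]) h2
  · exact key _ _ (by linarith [ha.1]) h3
  · constructor <;> norm_num

/-- The event of step B. -/
def EvB (ε : ℝ) (K r : ℤ) : Set (Site → I) := Compl ε K r ∩ {U | Good ε K r U}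

lemma measurableSet_EvB (K r : ℤ) : MeasurableSet (EvB ε K r) :=
  (measurableSet_Compl K r).inter (measurableSet_setOfPred.2 (measurable_good K r))

lemma split_of_EvB (hε : 0 < ε) {K r : ℤ} (hK : 0 < K) (hKr : K ≤ r) (hKe : 1 ≤ K * ε)
    {U : Site → I} (h : U ∈ EvB ε K r) : Split ε r 0 U := by
  obtain ⟨h1, h2⟩ := h
  have h3 : {V | mix (box r 0) V U ∈ EvA ε K r}.Nonempty := by
    rw [Set.nonempty_iff_ne_empty]
    intro h4
    apply h1
    rw [h4, measure_empty]
  obtain ⟨V, hV⟩ := h3
  exact ⟨hub_of_good hε hK hKr hKe (flatCorners_mix.1 hV.1) h2, V, hV.2⟩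

lemma potLaw_pi_pos {F : Finset Site} {c : Site → ℝ} (hc : ∀ a ∈ F, c a ∈ Set.Icc (0 : ℝ) 1)
    {δ : ℝ} (hδ : 0 < δ) : potLaw {V : Site → I | ∀ a ∈ F, |(V a : ℝ) - c a| < δ} ≠ 0 := by
  have h1 : {V : Site → I | ∀ a ∈ F, |(V a : ℝ) - c a| < δ} =
      Set.pi (F : Set Site) fun a => {u : I | |(u : ℝ) - c a| < δ} := by
    ext V
    simp only [Set.mem_pi, Finset.mem_coe]
    rfl
  rw [h1]
  unfold potLaw
  rw [Measure.infinitePi_pi _ fun a _ => measurableSet_lt (by fun_prop) (by fun_prop)]
  rw [Finset.prod_ne_zero_iff]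
  intro a ha
  exact (volume_near_pos (c a) (hc a ha) hδ).ne'

lemma stepB (hε : 0 < ε) {K r : ℤ} (hK : 0 < K) (hKr : K ≤ r)
    (h : potLaw (EvA ε K r) ≠ 0) : potLaw (EvB ε K r) ≠ 0 := by
  intro hB
  apply h
  -- resampling the potentials in the box
  have h1 : (potLaw.prod potLaw) ((fun p : (Site → I) × (Site → I) => mix (box r 0) p.2 p.1) ⁻¹'
      EvB ε K r) = 0 := by
    rw [← Measure.map_apply (measurable_mix _) (measurableSet_EvB K r), map_mix, hB]
  rw [Measure.measure_prod_null (measurable_mix _ (measurableSet_EvB K r))] at h1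
  have h2 : ∀ᵐ U ∂potLaw, U ∉ Compl ε K r := by
    filter_upwards [h1] with U hU hUC
    have h3 : potLaw {V : Site → I | ∀ a ∈ (box_finite r 0).toFinset,
        |(V a : ℝ) - target K r U a| < ε / 8} ≠ 0 := by
      refine potLaw_pi_pos (fun a ha => ?_) (by positivity)
      exact target_mem hK U ((box_finite r 0).mem_toFinset.1 ha)
    apply h3
    refine measure_mono_null ?_ hU
    intro V hV
    change mix (box r 0) V U ∈ EvB ε K r
    refine ⟨?_, ?_⟩
    · change potLaw {W | mix (box r 0) W (mix (box r 0) V U) ∈ EvA ε K r} ≠ 0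
      simp only [mix_mix]
      exact hUC
    · intro a ha
      rw [target_mix hKr (by omega), mix_of_mem ha]
      exact hV a ((box_finite r 0).mem_toFinset.2 ha)
  have h4 : (potLaw.prod potLaw) ((fun p : (Site → I) × (Site → I) => mix (box r 0) p.2 p.1) ⁻¹'
      EvA ε K r) = 0 := by
    rw [Measure.measure_prod_null (measurable_mix _ (measurableSet_EvA K r))]
    filter_upwards [h2] with U hU
    by_contra hne
    exact hU hne
  rwa [← Measure.map_apply (measurable_mix _) (measurableSet_EvA K r), map_mix] at h4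

/-! ### Step C: counting -/

lemma opn_shift {z : Site} {U : Site → I} {a b : Site} :
    Opn ε (shift z U) a b ↔ Opn ε U (a + z) (b + z) := by
  unfold Opn Adj shift
  simp only [Prod.fst_add, Prod.snd_add, add_sub_add_right_eq_sub]

lemma reach_shift {z : Site} {U : Site → I} {a b : Site} :
    Reach ε (shift z U) a b ↔ Reach ε U (a + z) (b + z) := by
  constructor
  · intro h
    exact ReflTransGen.lift (p := Opn ε U) (fun a => a + z) (fun _ _ h => opn_shift.1 h) _ _ h
  · intro h
    have h1 : ReflTransGen (Opn ε (shift z U)) (a + z - z) (b + z - z) :=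
      ReflTransGen.lift (p := Opn ε (shift z U)) (fun a => a - z) (fun c d h => by
        apply opn_shift.2
        rwa [sub_add_cancel, sub_add_cancel]) _ _ h
    rwa [add_sub_cancel_right, add_sub_cancel_right] at h1

lemma strong_shift {z : Site} {U : Site → I} {a b : Site} :
    Strong ε (shift z U) a b ↔ Strong ε U (a + z) (b + z) := and_congr reach_shift reach_shift

lemma box_shift {r : ℤ} {z a : Site} : a ∈ box r 0 ↔ a + z ∈ box r z := by
  unfold box
  simp only [Set.mem_ofPred_eq, Prod.fst_zero, Prod.snd_zero, sub_zero, Prod.fst_add,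
    Prod.snd_add, add_sub_cancel_right]

lemma bdry_shift {r : ℤ} {z a : Site} : a ∈ bdry r 0 ↔ a + z ∈ bdry r z := by
  unfold bdry
  simp only [Set.mem_ofPred_eq]
  constructor
  · rintro ⟨h1, b, hb, hab⟩
    refine ⟨fun h => h1 (box_shift.2 h), b + z, box_shift.1 hb, ?_⟩
    unfold Adj at *
    simpa using hab
  · rintro ⟨h1, b, hb, hab⟩
    refine ⟨fun h => h1 (box_shift.1 h), b - z, box_shift.2 (by rwa [sub_add_cancel]), ?_⟩
    unfold Adj at *
    simp only [Prod.fst_add, Prod.snd_add, Prod.fst_sub, Prod.snd_sub] at hab ⊢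
    have e1 : b.1 - z.1 - a.1 = b.1 - (a.1 + z.1) := by ring
    have e2 : b.2 - z.2 - a.2 = b.2 - (a.2 + z.2) := by ring
    rw [e1, e2]
    exact hab

lemma split_shift {r : ℤ} {z : Site} {U : Site → I} (h : Split ε r 0 (shift z U)) :
    Split ε r z U := by
  obtain ⟨h1, V, t, h2, h3, h4⟩ := h
  refine ⟨?_, fun a => V (a - z), fun i => t i + z, ?_, ?_, ?_⟩
  · intro b hb b' hb'
    have h5 := h1 (b - z) (bdry_shift.2 (by rwa [sub_add_cancel])) (b' - z)
      (bdry_shift.2 (by rwa [sub_add_cancel]))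
    have h6 := ReflTransGen.lift (p := LocOpn ε r z U) (fun a => a + z) (fun c d hcd =>
      (⟨opn_shift.1 hcd.1, box_shift.1 hcd.2.1, box_shift.1 hcd.2.2⟩ :
        LocOpn ε r z U (c + z) (d + z))) _ _ h5
    have h7 : ReflTransGen (LocOpn ε r z U) (b - z + z) (b' - z + z) := h6
    rwa [sub_add_cancel, sub_add_cancel] at h7
  · intro i
    exact bdry_shift.1 (h2 i)
  all_goals
    have hmix : shift z (mix (box r z) (fun a => V (a - z)) U) = mix (box r 0) V (shift z U) := by
      funext a
      by_cases ha : a ∈ box r 0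
      · rw [mix_of_mem ha]
        change mix (box r z) (fun a => V (a - z)) U (a + z) = _
        rw [mix_of_mem (box_shift.1 ha), add_sub_cancel_right]
      · rw [mix_of_not_mem ha]
        change mix (box r z) (fun a => V (a - z)) U (a + z) = _
        rw [mix_of_not_mem fun h => ha (box_shift.2 h)]
        rfl
  · intro i
    rw [← hmix] at h3
    have h5 := (h3 i).image (f := fun a => a + z) (fun a _ b _ h => add_right_cancel h)
    refine h5.mono ?_
    rintro _ ⟨a, ha, rfl⟩
    exact strong_shift.1 ha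
  · intro i j hij h
    rw [← hmix] at h4
    exact h4 i j hij (strong_shift.2 h)

/-- The centres of the boxes. -/
def centres (L : ℤ) (m : ℕ) : Finset Site :=
  (Finset.range m ×ˢ Finset.range m).image fun p => ((L * p.1, L * p.2) : Site)

lemma card_centres {L : ℤ} (hL : 0 < L) (m : ℕ) : (centres L m).card = m * m := by
  unfold centres
  rw [Finset.card_image_of_injective, Finset.card_product, Finset.card_range]
  rintro ⟨a, b⟩ ⟨c, d⟩ h
  simp only [Prod.mk.injEq] at h ⊢
  have h1 := mul_left_cancel₀ hL.ne' h.1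
  have h2 := mul_left_cancel₀ hL.ne' h.2
  constructor
  · exact_mod_cast h1
  · exact_mod_cast h2

open Classical in
lemma count_le (hε : 0 < ε) {K : ℤ} {r : ℤ} (hK : 0 < K) (hKr : K ≤ r) (hKe : 1 ≤ K * ε) (m : ℕ)
    (U : Site → I) : (((centres (2 * r + 3) m).filter fun z => shift z U ∈ EvB ε K r).card : ℤ) ≤
      4 * (2 * ((2 * r + 3) * m + r + 3) + 1) := by
  set L := 2 * r + 3 with hL
  have h1 := card_split_le (ε := ε) (r := r) (by omega) (L * m + r + 3) U
    ((centres L m).filter fun z => shift z U ∈ EvB ε K r) ?_ ?_ ?_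
  · have hpos : 0 ≤ L * m + r + 3 := by
      have : 0 ≤ L * m := mul_nonneg (by omega) (by positivity)
      omega
    have h2 := card_sphere (L * m + r + 3) hpos
    have h3 : ((((centres L m).filter fun z => shift z U ∈ EvB ε K r).card : ℕ) : ℤ) ≤
        ((sphere (L * m + r + 3)).card : ℤ) := by exact_mod_cast h1
    linarith
  · intro j hj l hl hjl
    rw [Finset.mem_filter] at hj hl
    obtain ⟨⟨a, b⟩, -, rfl⟩ := Finset.mem_image.1 hj.1
    obtain ⟨⟨c, d⟩, -, rfl⟩ := Finset.mem_image.1 hl.1
    rw [Set.disjoint_left]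
    intro x hx hx'
    apply hjl
    unfold box at hx hx'
    simp only [Set.mem_ofPred_eq, abs_le] at hx hx'
    have key : ∀ (u v : ℕ) (w : ℤ), -r ≤ w - L * u → w - L * u ≤ r → -(r + 1) ≤ w - L * v →
        w - L * v ≤ r + 1 → u = v := by
      intro u v w k1 k2 k3 k4
      by_contra huv
      rcases lt_or_gt_of_ne huv with h | h
      · have h5 : (u : ℤ) + 1 ≤ v := by exact_mod_cast h
        have h6 : L * (u + 1) ≤ L * v := mul_le_mul_of_nonneg_left h5 (by omega)
        rw [mul_add, mul_one] at h6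
        omega
      · have h5 : (v : ℤ) + 1 ≤ u := by exact_mod_cast h
        have h6 : L * (v + 1) ≤ L * u := mul_le_mul_of_nonneg_left h5 (by omega)
        rw [mul_add, mul_one] at h6
        omega
    have e1 := key a c x.1 hx.1.1 hx.1.2 hx'.1.1 hx'.1.2
    have e2 := key b d x.2 hx.2.1 hx.2.2 hx'.2.1 hx'.2.2
    rw [e1, e2]
  · intro j hj
    rw [Finset.mem_filter] at hj
    obtain ⟨⟨a, b⟩, hab, rfl⟩ := Finset.mem_image.1 hj.1
    rw [Finset.mem_product, Finset.mem_range, Finset.mem_range] at hab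
    intro x hx
    unfold box at hx ⊢
    simp only [Set.mem_ofPred_eq, abs_le, Prod.fst_zero, Prod.snd_zero, sub_zero] at hx ⊢
    have key : ∀ (u : ℕ) (w : ℤ), u < m → -(r + 1) ≤ w - L * u → w - L * u ≤ r + 1 →
        -(L * m + r + 3 - 1) ≤ w ∧ w ≤ L * m + r + 3 - 1 := by
      intro u w hu k1 k2
      have h5 : (u : ℤ) ≤ m := by exact_mod_cast hu.le
      have h6 : L * u ≤ L * m := mul_le_mul_of_nonneg_left h5 (by omega)
      have h7 : 0 ≤ L * u := mul_nonneg (by omega) (by positivity)
      omega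
    exact ⟨key a x.1 hab.1 hx.1.1 hx.1.2, key b x.2 hab.2 hx.2.1 hx.2.2⟩
  · intro j hj
    rw [Finset.mem_filter] at hj
    exact split_shift (split_of_EvB hε hK hKr hKe hj.2)

lemma stepC (hε : 0 < ε) {K r : ℤ} (hK : 0 < K) (hKr : K ≤ r) (hKe : 1 ≤ K * ε) :
    potLaw (EvB ε K r) = 0 := by
  classical
  by_contra hne
  set q := (potLaw (EvB ε K r)).toReal with hq
  have hqpos : 0 < q := ENNReal.toReal_pos hne (measure_ne_top _ _)
  have hbound : ∀ m : ℕ, (m * m : ℝ) * q ≤ 4 * (2 * ((2 * r + 3) * m + r + 3) + 1) := by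
    intro m
    set G := centres (2 * r + 3) m with hG
    have hL : (0 : ℤ) < 2 * r + 3 := by omega
    have h1 : ∫ U, ((G.filter fun z => shift z U ∈ EvB ε K r).card : ℝ) ∂potLaw =
        (m * m : ℝ) * q := by
      have h2 : ∀ U : Site → I, ((G.filter fun z => shift z U ∈ EvB ε K r).card : ℝ) =
          ∑ z ∈ G, (shift z ⁻¹' EvB ε K r).indicator (fun _ => (1 : ℝ)) U := by
        intro U
        rw [Finset.card_filter]
        push_cast
        refine Finset.sum_congr rfl fun z _ => ?_
        by_cases h : shift z U ∈ EvB ε K r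
        · rw [if_pos h, Set.indicator_of_mem (by exact h)]
        · rw [if_neg h, Set.indicator_of_notMem (by exact h)]
      simp only [h2]
      have hms : ∀ z, MeasurableSet (shift z ⁻¹' EvB ε K r) := fun z =>
        measurable_shift z (measurableSet_EvB K r)
      rw [integral_finsetSum]
      · have h3 : ∀ z ∈ G, ∫ U, (shift z ⁻¹' EvB ε K r).indicator (fun _ => (1 : ℝ)) U ∂potLaw =
            q := by
          intro z _
          rw [integral_indicator (hms z), setIntegral_const, smul_eq_mul, mul_one,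
            Measure.real, ← Measure.map_apply (measurable_shift z) (measurableSet_EvB K r),
            map_shift]
        rw [Finset.sum_congr rfl h3, Finset.sum_const, hG, card_centres hL, nsmul_eq_mul]
        push_cast
        ring
      · intro z _
        exact (integrable_const (1 : ℝ)).indicator (hms z)
    rw [← h1]
    have h4 : ∀ U : Site → I, ((G.filter fun z => shift z U ∈ EvB ε K r).card : ℝ) ≤
        4 * (2 * ((2 * r + 3) * m + r + 3) + 1) := by
      intro U
      have := count_le hε hK hKr hKe m U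
      exact_mod_cast this
    calc ∫ U, ((G.filter fun z => shift z U ∈ EvB ε K r).card : ℝ) ∂potLaw
        ≤ ∫ _, (4 * (2 * ((2 * (r : ℝ) + 3) * m + r + 3) + 1) : ℝ) ∂potLaw := by
          refine integral_mono_of_nonneg (Filter.Eventually.of_forall fun U => by positivity)
            (integrable_const _) (Filter.Eventually.of_forall h4)
      _ = 4 * (2 * ((2 * r + 3) * m + r + 3) + 1) := by simp
  -- for large `m` this is a contradiction
  have hr0 : (0 : ℝ) ≤ r := by
    have : 0 ≤ r := by omega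
    exact_mod_cast this
  obtain ⟨m, hm⟩ := exists_nat_gt ((8 * (2 * (r : ℝ) + 3) + 8 * r + 28) / q)
  have hm0 : (0 : ℝ) < m := lt_of_le_of_lt (by positivity) hm
  have hm1 : (1 : ℝ) ≤ m := by
    have : 0 < m := by exact_mod_cast hm0
    exact_mod_cast this
  rw [div_lt_iff₀ hqpos] at hm
  have h5 := hbound m
  have h6 : (8 * (2 * (r : ℝ) + 3) + 8 * r + 28) * m < m * q * m := by
    exact mul_lt_mul_of_pos_right hm hm0
  nlinarith

/-- Almost surely there are no three different infinite strong clusters. -/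
theorem ae_not_three (hε : 0 < ε) : potLaw {U | Three' ε U} = 0 := by
  by_contra hne
  obtain ⟨K, hK⟩ := exists_nat_gt (1 / ε)
  have hKpos : (0 : ℝ) < K := lt_trans (by positivity) hK
  have hKe : (1 : ℝ) ≤ ((K : ℤ) : ℝ) * ε := by
    rw [div_lt_iff₀ hε] at hK
    push_cast
    exact hK.le
  have hK0 : (0 : ℤ) < K := by exact_mod_cast hKpos
  obtain ⟨n, hn, hA⟩ := stepA hε K hne
  have hn' : (K : ℤ) ≤ n := by exact_mod_cast hn
  exact stepB hε hK0 hn' hA (stepC hε hK0 hn' hKe)

end Pool.Agent.Lightning
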