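import Pool.Agent.Lightning.HubExist
import Pool.Agent.Lightning.Count

/-!
# The Lightning Model: measurability and resampling
-/

namespace Pool.Agent.Lightning

open MeasureTheory unitInterval Relation

variable {ε : ℝ}

/-! ### Measurability -/

lemma measurable_opn (a b : Site) : Measurable fun U : Site → I => Opn ε U a b := by
  unfold Opn
  refine Measurable.and measurable_const ?_
  apply measurableSet_setOfPred.1
  exact measurableSet_lt (by fun_prop) (by fun_prop)

/-- Reachability in `n` steps. -/
def RN (ε : ℝ) (U : Site → I) (a : Site) : ℕ → Site → Prop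
  | 0, b => a = b
  | n + 1, b => ∃ c, RN ε U a n c ∧ Opn ε U c b

lemma reach_iff_RN {U : Site → I} {a b : Site} : Reach ε U a b ↔ ∃ n, RN ε U a n b := by
  constructor
  · intro h
    induction h with
    | refl => exact ⟨0, rfl⟩
    | tail _ hbc ih =>
      obtain ⟨n, hn⟩ := ih
      exact ⟨n + 1, _, hn, hbc⟩
  · rintro ⟨n, hn⟩
    induction n generalizing b with
    | zero =>
      obtain rfl : a = b := hn
      exact ReflTransGen.refl
    | succ n ih =>
      obtain ⟨c, hc, hcb⟩ := hn
      exact (ih hc).tail hcb

lemma measurable_RN (a : Site) (n : ℕ) : ∀ b, Measurable fun U : Site → I => RN ε U a n b := by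
  induction n with
  | zero => intro b; exact measurable_const
  | succ n ih => intro b; exact Measurable.exists fun c => (ih c).and (measurable_opn c b)

lemma measurable_reach (a b : Site) : Measurable fun U : Site → I => Reach ε U a b := by
  simp only [reach_iff_RN]
  exact Measurable.exists fun n => measurable_RN a n b

lemma measurable_strong (a b : Site) : Measurable fun U : Site → I => Strong ε U a b :=
  (measurable_reach a b).and (measurable_reach b a)

lemma infinite_iff (S : Set Site) : S.Infinite ↔ ∀ F : Finset Site, ∃ b, b ∉ F ∧ b ∈ S := by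
  constructor
  · intro h F
    obtain ⟨b, hb, hbF⟩ := h.exists_notMem_finset F
    exact ⟨b, hbF, hb⟩
  · intro h hfin
    obtain ⟨b, hb, hbS⟩ := h hfin.toFinset
    exact hb (hfin.mem_toFinset.2 hbS)

lemma measurable_infinite (a : Site) :
    Measurable fun U : Site → I => {b | Strong ε U a b}.Infinite := by
  simp only [infinite_iff]
  exact Measurable.forall fun F => Measurable.exists fun b =>
    measurable_const.and (measurable_strong a b)

/-- Three different infinite strong clusters. -/
def Three' (ε : ℝ) (U : Site → I) : Prop :=
  ∃ t : Fin 3 → Site, (∀ i, {b | Strong ε U (t i) b}.Infinite) ∧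
    ∀ i j, i ≠ j → ¬ Strong ε U (t i) (t j)

lemma measurable_three (r : ℤ) (z : Site) : Measurable fun U : Site → I => Three ε r z U := by
  unfold Three
  refine Measurable.exists fun t => Measurable.and measurable_const (Measurable.and ?_ ?_)
  · exact Measurable.forall fun i => measurable_infinite (t i)
  · exact Measurable.forall fun i => Measurable.forall fun j =>
      measurable_const.imp (measurable_strong _ _).not

lemma measurable_flatCorners (K r : ℤ) :
    Measurable fun U : Site → I => FlatCorners ε K r U := by
  unfold FlatCorners
  refine Measurable.forall fun b => measurable_const.imp ?_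
  apply measurableSet_setOfPred.1
  exact measurableSet_lt (by fun_prop) (by fun_prop)

lemma measurable_target (K r : ℤ) (a : Site) : Measurable fun U : Site → I => target K r U a := by
  unfold target lin
  split_ifs <;> fun_prop

lemma measurable_good (K r : ℤ) : Measurable fun U : Site → I => Good ε K r U := by
  unfold Good
  refine Measurable.forall fun b => measurable_const.imp ?_
  apply measurableSet_setOfPred.1
  have := measurable_target K r b
  exact measurableSet_lt (by fun_prop) (by fun_prop)

/-! ### Changing the potentials in a box -/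

lemma measurable_mix (B : Set Site) :
    Measurable fun p : (Site → I) × (Site → I) => mix B p.2 p.1 := by
  classical
  refine measurable_pi_lambda _ fun a => ?_
  unfold mix
  by_cases h : a ∈ B
  · simp only [h, if_true]
    fun_prop
  · simp only [h, if_false]
    fun_prop

lemma map_mix (B : Set Site) :
    (potLaw.prod potLaw).map (fun p => mix B p.2 p.1) = potLaw := by
  classical
  conv_rhs => unfold potLaw
  apply Measure.eq_infinitePi
  intro s t ht
  rw [Measure.map_apply (measurable_mix B) (MeasurableSet.pi s.countable_toSet fun i _ => ht i)]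
  have h1 : (fun p : (Site → I) × (Site → I) => mix B p.2 p.1) ⁻¹' (Set.pi (s : Set Site) t) =
      (Set.pi ((s.filter fun i => i ∉ B : Finset Site) : Set Site) t) ×ˢ
        (Set.pi ((s.filter fun i => i ∈ B : Finset Site) : Set Site) t) := by
    ext ⟨U, V⟩
    simp only [Set.mem_preimage, Set.mem_pi, Set.mem_prod, Finset.mem_coe, Finset.mem_filter]
    constructor
    · intro h
      refine ⟨fun i hi => ?_, fun i hi => ?_⟩
      · have := h i hi.1
        rwa [mix_of_not_mem hi.2] at this
      · have := h i hi.1
        rwa [mix_of_mem hi.2] at this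
    · rintro ⟨h1, h2⟩ i hi
      by_cases hB : i ∈ B
      · rw [mix_of_mem hB]
        exact h2 i ⟨hi, hB⟩
      · rw [mix_of_not_mem hB]
        exact h1 i ⟨hi, hB⟩
  rw [h1, Measure.prod_prod]
  unfold potLaw
  rw [Measure.infinitePi_pi _ fun i _ => ht i, Measure.infinitePi_pi _ fun i _ => ht i, mul_comm,
    Finset.prod_filter_mul_prod_filter_not]

/-- Translation of the potentials. -/
def shift (z : Site) (U : Site → I) : Site → I := fun a => U (a + z)

lemma measurable_shift (z : Site) : Measurable (shift z) :=
  measurable_pi_lambda _ fun a => measurable_pi_apply (a + z)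

lemma map_shift (z : Site) : potLaw.map (shift z) = potLaw := by
  classical
  conv_rhs => unfold potLaw
  apply Measure.eq_infinitePi
  intro s t ht
  rw [Measure.map_apply (measurable_shift z) (MeasurableSet.pi s.countable_toSet fun i _ => ht i)]
  have h1 : shift z ⁻¹' (Set.pi (s : Set Site) t) =
      Set.pi ((s.map (addRightEmbedding z) : Finset Site) : Set Site) fun a => t (a - z) := by
    ext U
    simp only [Set.mem_preimage, Set.mem_pi, Finset.mem_coe, Finset.mem_map,
      addRightEmbedding_apply, shift]
    constructor
    · rintro h _ ⟨a, ha, rfl⟩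
      rw [add_sub_cancel_right]
      exact h a ha
    · intro h a ha
      have := h (a + z) ⟨a, ha, rfl⟩
      rwa [add_sub_cancel_right] at this
  rw [h1]
  unfold potLaw
  rw [Measure.infinitePi_pi _ fun i _ => ht _, Finset.prod_map]
  refine Finset.prod_congr rfl fun i _ => ?_
  change volume (t (i + z - z)) = volume (t i)
  rw [add_sub_cancel_right]

/-! ### Intervals have positive measure -/

lemma volume_near_pos (c : ℝ) (hc : c ∈ Set.Icc (0 : ℝ) 1) {δ : ℝ} (hδ : 0 < δ) :
    0 < volume {u : I | |(u : ℝ) - c| < δ} := by
  obtain ⟨hc0, hc1⟩ := hc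
  set δ' := min (δ / 2) (1 / 2) with hδ'
  have h1 : 0 < δ' := by positivity
  have h2 : δ' ≤ δ / 2 := min_le_left _ _
  have h3 : δ' ≤ 1 / 2 := min_le_right _ _
  rcases le_total c (1 / 2) with h | h
  · let x : I := ⟨c, hc0, hc1⟩
    let y : I := ⟨c + δ', by linarith, by linarith⟩
    have hsub : Set.Icc x y ⊆ {u : I | |(u : ℝ) - c| < δ} := by
      intro u hu
      have hu1 : c ≤ u := hu.1
      have hu2 : (u : ℝ) ≤ c + δ' := hu.2
      change |(u : ℝ) - c| < δ
      rw [abs_lt]
      constructor <;> linarith
    refine lt_of_lt_of_le ?_ (measure_mono hsub)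
    rw [unitInterval.volume_Icc, ENNReal.ofReal_pos]
    change 0 < c + δ' - c
    linarith
  · let x : I := ⟨c - δ', by linarith, by linarith⟩
    let y : I := ⟨c, hc0, hc1⟩
    have hsub : Set.Icc x y ⊆ {u : I | |(u : ℝ) - c| < δ} := by
      intro u hu
      have hu1 : c - δ' ≤ u := hu.1
      have hu2 : (u : ℝ) ≤ c := hu.2
      change |(u : ℝ) - c| < δ
      rw [abs_lt]
      constructor <;> linarith
    refine lt_of_lt_of_le ?_ (measure_mono hsub)
    rw [unitInterval.volume_Icc, ENNReal.ofReal_pos]
    change 0 < c - (c - δ')
    linarith

end Pool.Agent.Lightning
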